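import Pool.Agent.Q52.Spec.Facet

set_option autoImplicit false

namespace Pool.Agent.Q52.Spec

open scoped InnerProductSpace

lemma exists_pos_of_open {V : Type*} [NormedAddCommGroup V] [NormedSpace ℝ V] {U : Set V}
    (hU : IsOpen U) {o : V} (ho : o ∈ U) (w : V) : ∃ ε : ℝ, 0 < ε ∧ o + ε • w ∈ U := by
  have h1 : Filter.Tendsto (fun t : ℝ => o + t • w) (nhds 0) (nhds (o + (0 : ℝ) • w)) :=
    Continuous.tendsto (by fun_prop) 0
  rw [zero_smul, add_zero] at h1
  have h2 := h1 (hU.mem_nhds ho)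
  rw [Filter.mem_map, Metric.mem_nhds_iff] at h2
  obtain ⟨ε, hε, h3⟩ := h2
  refine ⟨ε / 2, by positivity, h3 ?_⟩
  rw [Metric.mem_ball, Real.dist_eq, sub_zero, abs_of_pos (by positivity)]
  linarith

section

variable {V : Type*} [NormedAddCommGroup V] [NormedSpace ℝ V] [FiniteDimensional ℝ V]

/-- Facets with small intersections form a countable family (in full dimension). -/
lemma countable_full {S : Set V} (hS : Convex ℝ S) {o : V} (ho : o ∈ interior S) {ι : Type*}
    (f : ι → V →ₗ[ℝ] ℝ) (c : ι → ℝ) (hf : ∀ i, ∀ z ∈ S, f i z ≤ c i) (hfo : ∀ i, f i o < c i)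
    (hd : ∀ i, Module.finrank ℝ (vectorSpan ℝ {z ∈ S | f i z = c i}) + 1 =
      Module.finrank ℝ V)
    (h2 : 2 ≤ Module.finrank ℝ V)
    (hij : ∀ i j, i ≠ j → ∀ a ∈ S, ∀ b ∈ S, f i a = c i → f j a = c j → f i b = c i → f j b = c j →
      a = b) : Countable ι := by
  classical
  let F : ι → Set V := fun i => {z ∈ S | f i z = c i}
  have hFne : ∀ i, (F i).Nonempty := by
    intro i
    by_contra hcon
    rw [Set.not_nonempty_iff_eq_empty] at hcon
    have h3 := hd i
    change Module.finrank ℝ (vectorSpan ℝ (F i)) + 1 = _ at h3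
    rw [hcon, vectorSpan_empty, finrank_bot] at h3
    omega
  have hFc : ∀ i, Convex ℝ (F i) := by
    intro i x hx y hy a b ha hb hab
    refine ⟨hS hx.1 hy.1 ha hb hab, ?_⟩
    rw [map_add, map_smul, map_smul, hx.2, hy.2, ← add_smul, hab, one_smul]
  let U : ι → Set V := fun i => interior (convexHull ℝ (insert o (F i)))
  have hmem : ∀ i, ∀ q ∈ U i, ∃ a ∈ F i, ∃ t : ℝ, 0 ≤ t ∧ q = (1 - t) • o + t • a := by
    intro i q hq
    have h3 := interior_subset hq
    rw [convexHull_insert (hFne i), (hFc i).convexHull_eq, mem_convexJoin] at h3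
    obtain ⟨o', ho', a, ha, hqa⟩ := h3
    rw [Set.mem_singleton_iff] at ho'
    subst ho'
    obtain ⟨s, t, hs, ht, hst, rfl⟩ := hqa
    exact ⟨a, ha, t, ht, by rw [← hst]; simp⟩
  have hUo : ∀ i, IsOpen (U i) := fun i => isOpen_interior
  have hUne : ∀ i, (U i).Nonempty := by
    intro i
    obtain ⟨p, hp⟩ := hFne i
    rw [(convex_convexHull ℝ _).interior_nonempty_iff_affineSpan_eq_top, affineSpan_convexHull,
      AffineSubspace.affineSpan_eq_top_iff_vectorSpan_eq_top_of_nonempty ℝ V V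
        ⟨o, Set.mem_insert _ _⟩]
    apply Submodule.eq_top_of_finrank_eq
    apply le_antisymm (Submodule.finrank_le _)
    rw [← hd i, Nat.succ_le_iff]
    apply Submodule.finrank_lt_finrank_of_lt
    refine lt_of_le_of_ne (vectorSpan_mono ℝ (Set.subset_insert _ _)) ?_
    intro heq
    have h3 : o - p ∈ vectorSpan ℝ (insert o (F i)) :=
      vsub_mem_vectorSpan ℝ (Set.mem_insert _ _) (Set.mem_insert_of_mem _ hp)
    have heq' : vectorSpan ℝ (insert o (F i)) = vectorSpan ℝ (F i) := heq.symm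
    rw [heq'] at h3
    have h4 : vectorSpan ℝ (F i) ≤ LinearMap.ker (f i) := by
      rw [vectorSpan_def, Submodule.span_le]
      rintro _ ⟨a, ha, b, hb, rfl⟩
      rw [SetLike.mem_coe, LinearMap.mem_ker]
      change f i (a - b) = 0
      rw [map_sub, ha.2, hb.2, sub_self]
    have h5 := LinearMap.mem_ker.1 (h4 h3)
    rw [map_sub, hp.2] at h5
    have := hfo i
    linarith
  refine Pairwise.countable_of_isOpen_disjoint (s := U) ?_ hUo hUne
  intro i j hne
  change Disjoint (U i) (U j)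
  rw [Set.disjoint_left]
  intro q0 hi0 hj0
  -- all points lie on a line
  have huniq : ∀ q, q ∈ U i → q ∈ U j → q ≠ o →
      ∃ a, (a ∈ F i ∧ a ∈ F j) ∧ ∃ t : ℝ, q = (1 - t) • o + t • a := by
    intro q hqi hqj hqo
    obtain ⟨a, ha, t, ht, hq1⟩ := hmem i q hqi
    obtain ⟨b, hb, s, hs, hq2⟩ := hmem j q hqj
    have ht0 : t ≠ 0 := by
      rintro rfl
      apply hqo
      rw [hq1]
      simp
    have hs0 : s ≠ 0 := by
      rintro rfl
      apply hqo
      rw [hq2]
      simp
    have e1 : f i q = (1 - t) * f i o + t * c i := by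
      rw [hq1, map_add, map_smul, map_smul, ha.2]
      rfl
    have e2 : f i q = (1 - s) * f i o + s * f i b := by
      rw [hq2, map_add, map_smul, map_smul]
      rfl
    have e3 : f j q = (1 - s) * f j o + s * c j := by
      rw [hq2, map_add, map_smul, map_smul, hb.2]
      rfl
    have e4 : f j q = (1 - t) * f j o + t * f j a := by
      rw [hq1, map_add, map_smul, map_smul]
      rfl
    have g1 := hfo i
    have g2 := hfo j
    have g3 := mul_le_mul_of_nonneg_left (hf i b hb.1) hs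
    have g4 := mul_le_mul_of_nonneg_left (hf j a ha.1) ht
    have hts : t ≤ s := by
      have h5 : t * (c i - f i o) ≤ s * (c i - f i o) := by nlinarith
      exact le_of_mul_le_mul_right h5 (by linarith)
    have hst : s ≤ t := by
      have h5 : s * (c j - f j o) ≤ t * (c j - f j o) := by nlinarith
      exact le_of_mul_le_mul_right h5 (by linarith)
    have hts' : t = s := le_antisymm hts hst
    subst hts'
    have hab : a = b := by
      have h6 : t • a = t • b := by
        have h7 := hq1.symm.trans hq2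
        exact add_left_cancel h7
      exact smul_right_injective V ht0 h6
    subst hab
    exact ⟨a, ⟨ha, hb⟩, t, hq1⟩
  have hspan : ∃ u : V, ∀ q, q ∈ U i → q ∈ U j → q - o ∈ Submodule.span ℝ {u} := by
    by_cases hex : ∃ q1, q1 ∈ U i ∧ q1 ∈ U j ∧ q1 ≠ o
    · obtain ⟨q1, h1i, h1j, h1o⟩ := hex
      obtain ⟨p, ⟨hpi, hpj⟩, -⟩ := huniq q1 h1i h1j h1o
      refine ⟨p - o, fun q hqi hqj => ?_⟩
      by_cases hqo : q = o
      · rw [hqo, sub_self]
        exact Submodule.zero_mem _
      · obtain ⟨a, ⟨hai, haj⟩, t, hq⟩ := huniq q hqi hqj hqo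
        have hap : a = p := hij i j hne a hai.1 p hpi.1 hai.2 haj.2 hpi.2 hpj.2
        subst hap
        rw [Submodule.mem_span_singleton]
        refine ⟨t, ?_⟩
        rw [hq]
        module
    · push Not at hex
      refine ⟨0, fun q hqi hqj => ?_⟩
      rw [hex q hqi hqj, sub_self]
      exact Submodule.zero_mem _
  obtain ⟨u, hu⟩ := hspan
  have htop : (⊤ : Submodule ℝ V) ≤ Submodule.span ℝ {u} := by
    intro w _
    obtain ⟨ε, hε, hw⟩ := exists_pos_of_open ((hUo i).inter (hUo j)) ⟨hi0, hj0⟩ w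
    have h5 := hu _ hw.1 hw.2
    have h6 := hu _ hi0 hj0
    have h7 := Submodule.sub_mem _ h5 h6
    have h8 : q0 + ε • w - o - (q0 - o) = ε • w := by module
    rw [h8] at h7
    exact (Submodule.smul_mem_iff _ hε.ne').1 h7
  have h9 := Submodule.finrank_mono htop
  rw [finrank_top] at h9
  have h10 : Module.finrank ℝ (Submodule.span ℝ {u}) ≤ 1 := by
    have := finrank_span_le_card (R := ℝ) ({u} : Set V)
    simpa using this
  omega

end

variable {E : Type*} [NormedAddCommGroup E] [InnerProductSpace ℝ E] [FiniteDimensional ℝ E]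

/-- Facets with small intersections form a countable family. -/
lemma countable_facets {S : Set E} (hS : Convex ℝ S) (h0 : (0 : E) ∈ S) {d : ℕ} (hd : 2 ≤ d)
    (hSd : dim S = d) {ι : Type*} (v : ι → E) (c : ι → ℝ) (hv : ∀ i, ∀ z ∈ S, ⟪v i, z⟫_ℝ ≤ c i)
    (hdim : ∀ i, dim {z ∈ S | ⟪v i, z⟫_ℝ = c i} = d - 1)
    (hij : ∀ i j, i ≠ j → ∀ a ∈ S, ∀ b ∈ S, ⟪v i, a⟫_ℝ = c i → ⟪v j, a⟫_ℝ = c j →
      ⟪v i, b⟫_ℝ = c i → ⟪v j, b⟫_ℝ = c j → a = b) : Countable ι := by
  let W : Submodule ℝ E := vectorSpan ℝ S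
  have hSW : ∀ z ∈ S, z ∈ W := by
    intro z hz
    have := vsub_mem_vectorSpan ℝ hz h0
    simpa using this
  let S' : Set W := {z | (z : E) ∈ S}
  have hS' : Convex ℝ S' := hS.linear_preimage W.subtype
  have himg : ∀ P : E → Prop, (W.subtype : W → E) '' {z ∈ S' | P z} = {z ∈ S | P z} := by
    intro P
    ext z
    constructor
    · rintro ⟨w, ⟨hw, hw'⟩, rfl⟩
      exact ⟨hw, hw'⟩
    · rintro ⟨hz, hz'⟩
      exact ⟨⟨z, hSW z hz⟩, ⟨hz, hz'⟩, rfl⟩
  have hrank : ∀ A : Set W, Module.finrank ℝ (vectorSpan ℝ ((W.subtype : W → E) '' A)) =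
      Module.finrank ℝ (vectorSpan ℝ A) := by
    intro A
    have h1 := AffineMap.map_vectorSpan (s := A) W.subtype.toAffineMap
    have h2 : vectorSpan ℝ ((W.subtype : W → E) '' A) = (vectorSpan ℝ A).map W.subtype := h1.symm
    rw [h2]
    exact Submodule.finrank_map_subtype_eq W _
  have hSimg : (W.subtype : W → E) '' S' = S := by
    have := himg fun _ => True
    simpa using this
  have hfull : vectorSpan ℝ S' = ⊤ := by
    apply Submodule.eq_top_of_finrank_eq
    rw [← hrank, hSimg]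
  have hSne : S'.Nonempty := ⟨0, h0⟩
  have haff : affineSpan ℝ S' = ⊤ :=
    (AffineSubspace.affineSpan_eq_top_iff_vectorSpan_eq_top_of_nonempty ℝ W W hSne).2 hfull
  obtain ⟨o, ho⟩ := hS'.interior_nonempty_iff_affineSpan_eq_top.2 haff
  have hWd : Module.finrank ℝ W = d := hSd
  have hoS' : o ∈ S' := interior_subset ho
  have hoS : (o : E) ∈ S := hoS'
  refine countable_full hS' ho (fun i => (innerₛₗ ℝ (v i)).comp W.subtype) c ?_ ?_ ?_
    (by omega) ?_
  · intro i z hz
    exact hv i z hz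
  · intro i
    by_contra hcon
    push Not at hcon
    have heq : ⟪v i, (o : E)⟫_ℝ = c i := le_antisymm (hv i o hoS) hcon
    have hall : ∀ z ∈ S, ⟪v i, z⟫_ℝ = c i := by
      intro z hz
      obtain ⟨ε, hε, h1⟩ := exists_pos_of_open isOpen_interior ho (o - ⟨z, hSW z hz⟩)
      have h2' : (o + ε • (o - ⟨z, hSW z hz⟩) : W) ∈ S' := interior_subset h1
      have h2 : ((o + ε • (o - ⟨z, hSW z hz⟩) : W) : E) ∈ S := h2'
      have h3 := hv i _ h2
      have h4 : ((o + ε • (o - ⟨z, hSW z hz⟩) : W) : E) = (o : E) + ε • ((o : E) - z) := rfl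
      rw [h4, inner_add_right, inner_smul_right, inner_sub_right, heq] at h3
      have h5 := hv i z hz
      nlinarith
    have h6 : {z ∈ S | ⟪v i, z⟫_ℝ = c i} = S := by
      ext z
      exact ⟨fun hz => hz.1, fun hz => ⟨hz, hall z hz⟩⟩
    have h7 := hdim i
    rw [h6, hSd] at h7
    omega
  · intro i
    have h1 := hrank {z ∈ S' | ⟪v i, (z : E)⟫_ℝ = c i}
    rw [himg fun z => ⟪v i, z⟫_ℝ = c i] at h1
    have h2 := hdim i
    unfold dim at h2
    rw [h2] at h1
    change Module.finrank ℝ (vectorSpan ℝ {z ∈ S' | ⟪v i, (z : E)⟫_ℝ = c i}) + 1 = _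
    rw [← h1, hWd]
    omega
  · intro i j hne a ha b hb h1 h2 h3 h4
    exact Subtype.ext (hij i j hne a ha b hb h1 h2 h3 h4)

end Pool.Agent.Q52.Spec
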