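import Pool.Agent.Q52.Spec.Count

set_option autoImplicit false

namespace Pool.Agent.Q52.Spec

open scoped InnerProductSpace

variable {E : Type*} [NormedAddCommGroup E] [InnerProductSpace ℝ E] [FiniteDimensional ℝ E]

/-- intersections of cylinders over balls -/
def cyl (A : ℕ → E →ₗ[ℝ] E) (b : ℕ → E) (r : ℕ → ℝ) (J : Finset ℕ) : Set E :=
  {x | ∀ i ∈ J, ‖A i x + b i‖ ≤ r i}

variable {A : ℕ → E →ₗ[ℝ] E} {b : ℕ → E} {r : ℕ → ℝ} {J : Finset ℕ}

omit [FiniteDimensional ℝ E] in
lemma norm_comb (i : ℕ) {x y : E} {s t : ℝ} (hs : 0 ≤ s) (ht : 0 ≤ t) (hst : s + t = 1) :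
    ‖A i (s • x + t • y) + b i‖ ≤ s * ‖A i x + b i‖ + t * ‖A i y + b i‖ := by
  have h1 : A i (s • x + t • y) + b i = s • (A i x + b i) + t • (A i y + b i) := by
    have h2 : b i = (s + t) • b i := by rw [hst, one_smul]
    rw [map_add, map_smul, map_smul]
    nth_rewrite 1 [h2]
    module
  rw [h1]
  refine (norm_add_le _ _).trans ?_
  rw [norm_smul, norm_smul, Real.norm_of_nonneg hs, Real.norm_of_nonneg ht]

omit [FiniteDimensional ℝ E] in
lemma convex_cyl : Convex ℝ (cyl A b r J) := by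
  intro x hx y hy s t hs ht hst i hi
  refine (norm_comb i hs ht hst).trans ?_
  have h1 := mul_le_mul_of_nonneg_left (hx i hi) hs
  have h2 := mul_le_mul_of_nonneg_left (hy i hi) ht
  have h3 : s * r i + t * r i = r i := by rw [← add_mul, hst, one_mul]
  linarith

lemma isOpen_strict (J' : Finset ℕ) : IsOpen {x : E | ∀ i ∈ J', ‖A i x + b i‖ < r i} := by
  have h1 : {x : E | ∀ i ∈ J', ‖A i x + b i‖ < r i} =
      ⋂ i ∈ J', {x : E | ‖A i x + b i‖ < r i} := by
    ext x
    simp
  rw [h1]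
  refine isOpen_biInter_finset fun i _ => ?_
  have h2 : Continuous (A i) := LinearMap.continuous_of_finiteDimensional _
  exact isOpen_lt (by fun_prop) continuous_const

/-- moving a little in a direction which does not change the other constraints -/
lemma move {x w : E} (hx : x ∈ cyl A b r J)
    (h : ∀ i ∈ J, ‖A i x + b i‖ < r i ∨ A i w = 0) :
    ∃ ε : ℝ, 0 < ε ∧ x + ε • w ∈ cyl A b r J := by
  classical
  obtain ⟨ε, hε, h1⟩ := exists_pos_of_open
    (isOpen_strict (A := A) (b := b) (r := r) (J.filter fun i => ‖A i x + b i‖ < r i))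
    (o := x) (by intro i hi; exact (Finset.mem_filter.1 hi).2) w
  refine ⟨ε, hε, fun i hi => ?_⟩
  by_cases h2 : ‖A i x + b i‖ < r i
  · exact (h1 i (Finset.mem_filter.2 ⟨hi, h2⟩)).le
  · rw [map_add, map_smul, (h i hi).resolve_left h2, smul_zero, add_zero]
    exact hx i hi

/-- the piece of the boundary -/
def piece (A : ℕ → E →ₗ[ℝ] E) (b : ℕ → E) (r : ℕ → ℝ) (J : Finset ℕ) (i : ℕ) (x : E) : Set E :=
  {z ∈ cyl A b r J | A i z = A i x}

/-- `x` is a point of `cyl` in which the constraint `i` is active and the constraints before are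
not -/
structure Wit (A : ℕ → E →ₗ[ℝ] E) (b : ℕ → E) (r : ℕ → ℝ) (J : Finset ℕ) (i : ℕ) (x : E) :
    Prop where
  mem : x ∈ cyl A b r J
  act : ‖A i x + b i‖ = r i
  inact : ∀ i' ∈ J, i' < i → ‖A i' x + b i'‖ < r i'

variable (hA : ∀ i j, i ≤ j → ∀ x, A i x = 0 → A j x = 0)

include hA

omit hA [FiniteDimensional ℝ E] in
lemma exists_inactive {F : Set E} (hF : IsFace (cyl A b r J) F) (hne : F.Nonempty) :
    ∃ x ∈ F, ∀ i ∈ J, (∃ z ∈ F, ‖A i z + b i‖ < r i) → ‖A i x + b i‖ < r i := by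
  classical
  have key : ∀ J' : Finset ℕ, J' ⊆ J → ∃ x ∈ F, ∀ i ∈ J', (∃ z ∈ F, ‖A i z + b i‖ < r i) →
      ‖A i x + b i‖ < r i := by
    intro J'
    induction J' using Finset.induction_on with
    | empty =>
      intro _
      obtain ⟨x, hx⟩ := hne
      exact ⟨x, hx, by simp⟩
    | insert j J' hj ih =>
      intro hsub
      obtain ⟨x, hx, hxJ⟩ := ih (fun i hi => hsub (Finset.mem_insert_of_mem hi))
      by_cases hz : ∃ z ∈ F, ‖A j z + b j‖ < r j
      · obtain ⟨z, hzF, hz⟩ := hz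
        have hm : (1 / 2 : ℝ) • x + (1 / 2 : ℝ) • z ∈ F :=
          hF.1 hx hzF (by norm_num) (by norm_num) (by norm_num)
        refine ⟨_, hm, fun i hi hiz => ?_⟩
        have hiJ := hsub hi
        have h1 := norm_comb (A := A) (b := b) i (x := x) (y := z) (s := 1 / 2) (t := 1 / 2)
          (by norm_num) (by norm_num) (by norm_num)
        have h2 := hF.2.1 hx i hiJ
        have h3 := hF.2.1 hzF i hiJ
        rcases Finset.mem_insert.1 hi with rfl | hi'
        · linarith
        · have h4 := hxJ i hi' hiz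
          linarith
      · refine ⟨x, hx, fun i hi hiz => ?_⟩
        rcases Finset.mem_insert.1 hi with rfl | hi'
        · exact absurd hiz hz
        · exact hxJ i hi' hiz
  exact key J subset_rfl

/-- All proper faces are pieces. -/
lemma face_eq_piece {F : Set E} (hF : IsFace (cyl A b r J) F) (hne : F.Nonempty)
    (hFS : F ≠ cyl A b r J) : ∃ i ∈ J, ∃ x, Wit A b r J i x ∧ F = piece A b r J i x := by
  classical
  obtain ⟨x, hx, hxJ⟩ := exists_inactive hF hne
  have hxS := hF.2.1 hx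
  let Act := J.filter fun i => ¬ ‖A i x + b i‖ < r i
  have hAct : ∀ i ∈ Act, ∀ z ∈ F, ‖A i z + b i‖ = r i := by
    intro i hi z hz
    obtain ⟨hiJ, hi'⟩ := Finset.mem_filter.1 hi
    refine le_antisymm (hF.2.1 hz i hiJ) ?_
    by_contra hcon
    push Not at hcon
    exact hi' (hxJ i hiJ ⟨z, hz, hcon⟩)
  have hback : ∀ z ∈ cyl A b r J, (∀ i ∈ J, ‖A i x + b i‖ < r i ∨ A i (x - z) = 0) → z ∈ F := by
    intro z hz h
    obtain ⟨ε, hε, h1⟩ := move hxS h
    exact minFace_subset hF hx ⟨hz, ε, hε, h1⟩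
  by_cases hemp : Act = ∅
  · exfalso
    apply hFS
    refine Set.Subset.antisymm hF.2.1 fun z hz => hback z hz fun i hi => Or.inl ?_
    by_contra hcon
    have : i ∈ Act := Finset.mem_filter.2 ⟨hi, hcon⟩
    rw [hemp] at this
    simp at this
  · have hne' : Act.Nonempty := Finset.nonempty_iff_ne_empty.2 hemp
    set i := Act.min' hne' with hidef
    have hi : i ∈ Act := Act.min'_mem hne'
    obtain ⟨hiJ, hi'⟩ := Finset.mem_filter.1 hi
    refine ⟨i, hiJ, x, ⟨hxS, hAct i hi x hx, ?_⟩, ?_⟩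
    · intro j hj hji
      by_contra hcon
      have : j ∈ Act := Finset.mem_filter.2 ⟨hj, hcon⟩
      have := Act.min'_le j this
      omega
    · refine Set.Subset.antisymm (fun z hz => ⟨hF.2.1 hz, ?_⟩) fun z hz => ?_
      · -- strict convexity
        have h1 := hAct i hi z hz
        have h2 := hAct i hi x hx
        have hm : (1 / 2 : ℝ) • x + (1 / 2 : ℝ) • z ∈ F :=
          hF.1 hx hz (by norm_num) (by norm_num) (by norm_num)
        have h3 := hAct i hi _ hm
        have h4 : A i ((1 / 2 : ℝ) • x + (1 / 2 : ℝ) • z) + b i =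
            (1 / 2 : ℝ) • ((A i x + b i) + (A i z + b i)) := by
          rw [map_add, map_smul, map_smul]
          module
        rw [h4, norm_smul, Real.norm_of_nonneg (by norm_num : (0 : ℝ) ≤ 1 / 2)] at h3
        have h5 := parallelogram_law_with_norm ℝ (A i x + b i) (A i z + b i)
        have h6 : ‖(A i x + b i) + (A i z + b i)‖ = 2 * r i := by linarith
        rw [h6, h1, h2] at h5
        have h7 : ‖(A i x + b i) - (A i z + b i)‖ * ‖(A i x + b i) - (A i z + b i)‖ = 0 := by
          linarith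
        have h8 : (A i x + b i) - (A i z + b i) = 0 := by
          rw [← norm_eq_zero]
          exact mul_self_eq_zero.1 h7
        have h9 : A i x - A i z = 0 := by
          rw [← h8]
          abel
        exact (sub_eq_zero.1 h9).symm
      · refine hback z hz.1 fun j hj => ?_
        by_cases hji : j < i
        · left
          by_contra hcon
          have : j ∈ Act := Finset.mem_filter.2 ⟨hj, hcon⟩
          have := Act.min'_le j this
          omega
        · right
          apply hA i j (not_lt.1 hji)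
          rw [map_sub, hz.2, sub_self]

omit hA in
lemma piece_exposed {i : ℕ} {x : E} (hi : i ∈ J) (hw : Wit A b r J i x) :
    ∃ (v : E) (c : ℝ), (∀ z ∈ cyl A b r J, ⟪v, z⟫_ℝ ≤ c) ∧
      piece A b r J i x = {z ∈ cyl A b r J | ⟪v, z⟫_ℝ = c} := by
  have hv : ∀ z, ⟪LinearMap.adjoint (A i) (A i x + b i), z⟫_ℝ = ⟪A i x + b i, A i z⟫_ℝ :=
    fun z => LinearMap.adjoint_inner_left _ _ _
  have key : ∀ z ∈ cyl A b r J, ‖(A i x + b i) - (A i z + b i)‖ ^ 2 ≤
      2 * (r i ^ 2 - ⟪A i x + b i, b i⟫_ℝ - ⟪A i x + b i, A i z⟫_ℝ) := by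
    intro z hz
    have h1 := hz i hi
    have h2 : ‖A i z + b i‖ ^ 2 ≤ r i ^ 2 := pow_le_pow_left₀ (norm_nonneg _) h1 2
    rw [norm_sub_sq_real, hw.act, inner_add_right]
    linarith
  refine ⟨LinearMap.adjoint (A i) (A i x + b i), r i ^ 2 - ⟪A i x + b i, b i⟫_ℝ, ?_, ?_⟩
  · intro z hz
    rw [hv]
    have h1 := key z hz
    have h2 : 0 ≤ ‖(A i x + b i) - (A i z + b i)‖ ^ 2 := by positivity
    linarith
  · ext z
    constructor
    · rintro ⟨hz, hzx⟩
      refine ⟨hz, ?_⟩
      rw [hv, hzx]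
      have h3 : ⟪A i x + b i, A i x⟫_ℝ + ⟪A i x + b i, b i⟫_ℝ = r i ^ 2 := by
        rw [← inner_add_right, real_inner_self_eq_norm_sq, hw.act]
      linarith
    · rintro ⟨hz, hzc⟩
      refine ⟨hz, ?_⟩
      rw [hv] at hzc
      have h1 := key z hz
      rw [hzc] at h1
      have h2 : ‖(A i x + b i) - (A i z + b i)‖ ^ 2 = 0 :=
        le_antisymm (by linarith) (by positivity)
      have h3 : (A i x + b i) - (A i z + b i) = 0 := by
        rw [← norm_eq_zero]
        exact pow_eq_zero_iff (two_ne_zero) |>.1 h2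
      have h4 : A i x - A i z = 0 := by
        rw [← h3]
        abel
      exact (sub_eq_zero.1 h4).symm

lemma dim_piece {i : ℕ} {x : E} (hw : Wit A b r J i x) :
    dim (piece A b r J i x) = Module.finrank ℝ (LinearMap.ker (A i)) := by
  have h1 : vectorSpan ℝ (piece A b r J i x) = LinearMap.ker (A i) := by
    apply le_antisymm
    · rw [vectorSpan_def, Submodule.span_le]
      rintro _ ⟨y, hy, z, hz, rfl⟩
      rw [SetLike.mem_coe, LinearMap.mem_ker]
      change A i (y - z) = 0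
      rw [map_sub, hy.2, hz.2, sub_self]
    · intro w hwk
      rw [LinearMap.mem_ker] at hwk
      obtain ⟨ε, hε, h1⟩ := move (w := w) hw.mem (by
        intro j hj
        by_cases hji : j < i
        · exact Or.inl (hw.inact j hj hji)
        · exact Or.inr (hA i j (not_lt.1 hji) w hwk))
      have h2 : x + ε • w ∈ piece A b r J i x := by
        refine ⟨h1, ?_⟩
        rw [map_add, map_smul, hwk, smul_zero, add_zero]
      have h3 : x ∈ piece A b r J i x := ⟨hw.mem, rfl⟩
      have h4 : (x + ε • w) - x ∈ vectorSpan ℝ (piece A b r J i x) :=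
        vsub_mem_vectorSpan ℝ h2 h3
      rw [add_sub_cancel_left] at h4
      exact (Submodule.smul_mem_iff _ hε.ne').1 h4
  unfold dim
  rw [h1]

omit hA in
lemma dim_cyl {x : E} (hx : ∀ i ∈ J, ‖A i x + b i‖ < r i) :
    dim (cyl A b r J) = Module.finrank ℝ E := by
  have hxS : x ∈ cyl A b r J := fun i hi => (hx i hi).le
  have h1 : vectorSpan ℝ (cyl A b r J) = ⊤ := by
    rw [eq_top_iff]
    intro w _
    obtain ⟨ε, hε, h1⟩ := move (w := w) hxS (fun i hi => Or.inl (hx i hi))
    have h4 : (x + ε • w) - x ∈ vectorSpan ℝ (cyl A b r J) :=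
      vsub_mem_vectorSpan ℝ h1 hxS
    rw [add_sub_cancel_left] at h4
    exact (Submodule.smul_mem_iff _ hε.ne').1 h4
  unfold dim
  rw [h1, finrank_top]

theorem faciallyExposed_cyl : FaciallyExposed (cyl A b r J) := by
  intro F hF hne hFS
  obtain ⟨i, hi, x, hw, hFx⟩ := face_eq_piece hA hF hne hFS
  obtain ⟨v, c, h1, h2⟩ := piece_exposed hi hw
  refine ⟨v, ?_, c, h1, by rw [hFx, h2]⟩
  rintro rfl
  apply hFS
  rw [hFx, h2]
  have hc : c = 0 := by
    have h3 : x ∈ piece A b r J i x := ⟨hw.mem, rfl⟩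
    rw [h2] at h3
    have := h3.2
    simpa using this.symm
  ext z
  simp [hc]

theorem signature_cyl {x0 : E} (hx0 : ∀ i ∈ J, ‖A i x0 + b i‖ < r i)
    (hwit : ∀ i ∈ J, ∃ x, Wit A b r J i x) :
    signature (cyl A b r J) =
      {k | k = Module.finrank ℝ E ∨ ∃ i ∈ J, k = Module.finrank ℝ (LinearMap.ker (A i))} := by
  ext k
  constructor
  · rintro ⟨F, hF, hne, rfl⟩
    by_cases hFS : F = cyl A b r J
    · left
      rw [hFS, dim_cyl hx0]
    · right
      obtain ⟨i, hi, x, hw, hFx⟩ := face_eq_piece hA hF hne hFS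
      exact ⟨i, hi, by rw [hFx, dim_piece hA hw]⟩
  · rintro (rfl | ⟨i, hi, rfl⟩)
    · exact ⟨cyl A b r J, isFace_self convex_cyl, ⟨x0, fun i hi => (hx0 i hi).le⟩, dim_cyl hx0⟩
    · obtain ⟨x, hw⟩ := hwit i hi
      obtain ⟨v, c, h1, h2⟩ := piece_exposed hi hw
      refine ⟨piece A b r J i x, ?_, ⟨x, hw.mem, rfl⟩, dim_piece hA hw⟩
      rw [h2]
      exact isFace_exposed convex_cyl h1

end Pool.Agent.Q52.Spec
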