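import Mathlib

set_option autoImplicit false

/-!
Definitions for MP_f0e28a_gt: faces, dimensions of faces, exposed faces, polars and spectrahedra.
-/

namespace Pool.Agent.Q52.Spec

open scoped InnerProductSpace

section

variable {E : Type*} [NormedAddCommGroup E] [InnerProductSpace ℝ E]

/-- `F` is a face of the convex set `C`: it is a convex subset of `C` which contains `x` and `y`
whenever `x`, `y` are in `C` and the open segment between them meets `F`. -/
def IsFace (C F : Set E) : Prop :=
  Convex ℝ F ∧ F ⊆ C ∧ ∀ x ∈ C, ∀ y ∈ C, (openSegment ℝ x y ∩ F).Nonempty → x ∈ F ∧ y ∈ F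

/-- The dimension of the affine hull of the (nonempty) set `F`. -/
noncomputable def dim (F : Set E) : ℕ := Module.finrank ℝ (vectorSpan ℝ F)

/-- The facial dimension signature: the set of the dimensions of the nonempty faces of `C`. -/
def signature (C : Set E) : Set ℕ := {k | ∃ F, IsFace C F ∧ F.Nonempty ∧ dim F = k}

/-- There is a closed half-space which contains `C` and whose boundary hyperplane meets `C` in
exactly `F`. -/
def IsExposed (C F : Set E) : Prop :=
  ∃ v : E, v ≠ 0 ∧ ∃ c : ℝ, (∀ x ∈ C, ⟪v, x⟫_ℝ ≤ c) ∧ F = {x ∈ C | ⟪v, x⟫_ℝ = c}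

/-- Every nonempty proper face of `C` is exposed. -/
def FaciallyExposed (C : Set E) : Prop :=
  ∀ F, IsFace C F → F.Nonempty → F ≠ C → IsExposed C F

/-- The polar of `C`. -/
def polar (C : Set E) : Set E := {y | ∀ x ∈ C, ⟪x, y⟫_ℝ ≤ 1}

end

/-- `S` is a spectrahedron: there are real symmetric matrices `A₀`, `A i` of a common size such
that `S` is the set of the points `x` for which `A₀ + ∑ i, x i • A i` is positive semidefinite. -/
def IsSpectrahedron {n : ℕ} (S : Set (EuclideanSpace ℝ (Fin n))) : Prop :=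
  ∃ (N : ℕ) (A₀ : Matrix (Fin N) (Fin N) ℝ) (A : Fin n → Matrix (Fin N) (Fin N) ℝ),
    A₀.IsSymm ∧ (∀ i, (A i).IsSymm) ∧ S = {x | (A₀ + ∑ i, x i • A i).PosSemidef}

end Pool.Agent.Q52.Spec
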