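import Pool.Agent.Q52.Spec.Min

set_option autoImplicit false

namespace Pool.Agent.Q52.Spec

open scoped InnerProductSpace

variable {E : Type*} [NormedAddCommGroup E] [InnerProductSpace ℝ E]

lemma const_of_mem_vectorSpan {A : Set E} {v : E} {c : ℝ} (h : ∀ z ∈ A, ⟪v, z⟫_ℝ = c) {w : E}
    (hw : w ∈ vectorSpan ℝ A) : ⟪v, w⟫_ℝ = 0 := by
  have h1 : vectorSpan ℝ A ≤ LinearMap.ker (innerₛₗ ℝ v) := by
    rw [vectorSpan_def, Submodule.span_le]
    rintro _ ⟨a, ha, b, hb, rfl⟩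
    rw [SetLike.mem_coe, LinearMap.mem_ker]
    change ⟪v, a - b⟫_ℝ = 0
    rw [inner_sub_right, h a ha, h b hb, sub_self]
  exact LinearMap.mem_ker.1 (h1 hw)

variable [FiniteDimensional ℝ E]

lemma const_of_dim_eq {A B : Set E} (hAB : A ⊆ B) (hA : A.Nonempty) (hd : dim A = dim B)
    {v : E} {c : ℝ} (h : ∀ z ∈ A, ⟪v, z⟫_ℝ = c) : ∀ z ∈ B, ⟪v, z⟫_ℝ = c := by
  intro z hz
  obtain ⟨p, hp⟩ := hA
  have h1 : vectorSpan ℝ A = vectorSpan ℝ B :=
    Submodule.eq_of_le_of_finrank_eq (vectorSpan_mono ℝ hAB) hd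
  have h2 : z - p ∈ vectorSpan ℝ A := by
    rw [h1]
    exact vsub_mem_vectorSpan ℝ hz (hAB hp)
  have h3 := const_of_mem_vectorSpan h h2
  rw [inner_sub_right, h p hp] at h3
  linarith

lemma dim_mono {A B : Set E} (hAB : A ⊆ B) : dim A ≤ dim B :=
  Submodule.finrank_mono (vectorSpan_mono ℝ hAB)

lemma eq_of_dim_zero {A : Set E} (hd : dim A = 0) {x y : E} (hx : x ∈ A) (hy : y ∈ A) :
    x = y := by
  have h1 : vectorSpan ℝ A = ⊥ := Submodule.finrank_eq_zero.1 hd
  have h2 : x - y ∈ vectorSpan ℝ A := vsub_mem_vectorSpan ℝ hx hy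
  rw [h1, Submodule.mem_bot] at h2
  exact sub_eq_zero.1 h2

omit [FiniteDimensional ℝ E] in
lemma dim_singleton (x : E) : dim ({x} : Set E) = 0 := by
  unfold dim
  rw [vectorSpan_singleton]
  exact finrank_bot ℝ E

lemma dim_pos_of_ne {A : Set E} {x y : E} (hx : x ∈ A) (hy : y ∈ A) (hxy : x ≠ y) :
    dim A ≠ 0 := fun h => hxy (eq_of_dim_zero h hx hy)

/-- the situation to be excluded -/
structure Bad (S : Set E) (d : ℕ) : Prop where
  conv : Convex ℝ S
  closed : IsClosed S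
  zero : (0 : E) ∈ S
  hd : 3 ≤ d
  sig : signature S = {0, d - 1, d}
  exp : FaciallyExposed S
  expp : FaciallyExposed (polar S)

namespace Bad

variable {S : Set E} {d : ℕ}

omit [FiniteDimensional ℝ E] in
lemma dim_face (h : Bad S d) {F : Set E} (hF : IsFace S F) (hne : F.Nonempty) :
    dim F = 0 ∨ dim F = d - 1 ∨ dim F = d := by
  have h1 : dim F ∈ signature S := ⟨F, hF, hne, rfl⟩
  rw [h.sig] at h1
  simpa using h1

lemma dim_self (h : Bad S d) : dim S = d := by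
  have h1 : d ∈ signature S := by rw [h.sig]; simp
  obtain ⟨F, hF, hne, hFd⟩ := h1
  have h2 := dim_mono hF.2.1
  have h3 := h.hd
  rcases h.dim_face (isFace_self h.conv) ⟨0, h.zero⟩ with h4 | h4 | h4 <;> omega

/-- an exposed face which is not everything has dimension `0` or `d - 1` -/
lemma dim_exposed (h : Bad S d) {v : E} {c : ℝ} (hv : ∀ z ∈ S, ⟪v, z⟫_ℝ ≤ c) {x z : E}
    (hx : x ∈ S) (hxc : ⟪v, x⟫_ℝ = c) (hz : z ∈ S) (hzc : ⟪v, z⟫_ℝ ≠ c) :
    dim {z ∈ S | ⟪v, z⟫_ℝ = c} = 0 ∨ dim {z ∈ S | ⟪v, z⟫_ℝ = c} = d - 1 := by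
  rcases h.dim_face (isFace_exposed h.conv hv) ⟨x, hx, hxc⟩ with h1 | h1 | h1
  · exact Or.inl h1
  · exact Or.inr h1
  · exfalso
    refine hzc (const_of_dim_eq (A := {z ∈ S | ⟪v, z⟫_ℝ = c}) (fun y hy => hy.1) ⟨x, hx, hxc⟩
      (by rw [h1, h.dim_self]) (fun y hy => hy.2) z hz)

lemma exposed_point (h : Bad S d) {x : E} (hx0 : x ≠ 0) (hxf : IsFace S {x}) :
    ∃ y ∈ polar S, ∀ z ∈ S, ⟪z, y⟫_ℝ = 1 ↔ z = x := by
  have hne : ({x} : Set E) ≠ S := by
    intro h1
    have h2 := h.dim_self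
    rw [← h1, dim_singleton] at h2
    have := h.hd
    omega
  obtain ⟨v, -, c, hv, hS⟩ := h.exp {x} hxf ⟨x, rfl⟩ hne
  have hxm : x ∈ {z ∈ S | ⟪v, z⟫_ℝ = c} := by rw [← hS]; rfl
  have hc0 : 0 ≤ c := by simpa using hv 0 h.zero
  have hc : 0 < c := by
    rcases hc0.eq_or_lt with h1 | h1
    · exfalso
      have h2 : (0 : E) ∈ {z ∈ S | ⟪v, z⟫_ℝ = c} := ⟨h.zero, by simp [← h1]⟩
      rw [← hS] at h2
      exact hx0 h2.symm
    · exact h1
  refine ⟨(1 / c) • v, ?_, ?_⟩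
  · intro z hz
    have h1 := hv z hz
    rw [inner_smul_right, real_inner_comm, one_div, inv_mul_le_iff₀ hc]
    linarith
  · intro z hz
    rw [inner_smul_right, real_inner_comm]
    constructor
    · intro h1
      have h2 : ⟪v, z⟫_ℝ = c := by
        field_simp at h1
        linarith
      have h3 : z ∈ {z ∈ S | ⟪v, z⟫_ℝ = c} := ⟨hz, h2⟩
      rw [← hS] at h3
      exact h3
    · rintro rfl
      rw [hxm.2]
      field_simp

/-- a point of the polar which exposes exactly `x` and lies on a ray as below can be moved on -/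
lemma extend (h : Bad S d) {x y w : E} (hy : y ∈ polar S) (hx : x ∈ S)
    (hyx : ∀ z ∈ S, ⟪z, y⟫_ℝ = 1 ↔ z = x) {m : E} (hm : m ∈ polar S) (hmx : ⟪x, m⟫_ℝ = 1) {t : ℝ}
    (ht : 0 < t) (hw : y - m = t • w) : ∃ ε : ℝ, 0 < ε ∧ y + ε • w ∈ polar S := by
  have hP := convex_polar S
  have hM := isFace_minFace hP hy
  have hyM := mem_minFace_self hy
  have hxP : ∀ z ∈ polar S, ⟪x, z⟫_ℝ ≤ 1 := fun z hz => hz x hx
  have hFx := isFace_exposed hP hxP
  have hyx1 : ⟪x, y⟫_ℝ = 1 := (hyx x hx).2 rfl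
  have hsub : minFace (polar S) y ⊆ {z ∈ polar S | ⟪x, z⟫_ℝ = 1} :=
    minFace_subset hFx ⟨hy, hyx1⟩
  have h0 : (0 : E) ∉ minFace (polar S) y := by
    intro h1
    have := (hsub h1).2
    simp at this
  have hne : minFace (polar S) y ≠ polar S := by
    intro h1
    exact h0 (h1.symm.subset (zero_mem_polar S))
  obtain ⟨v, -, c, hv, hMv⟩ := h.expp _ hM ⟨y, hyM⟩ hne
  have hc0 : 0 ≤ c := by simpa using hv 0 (zero_mem_polar S)
  have hc : 0 < c := by
    rcases hc0.eq_or_lt with h1 | h1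
    · exfalso
      apply h0
      rw [hMv]
      exact ⟨zero_mem_polar S, by simp [← h1]⟩
    · exact h1
  have hvS : (1 / c) • v ∈ S := by
    apply mem_of_bipolar h.conv h.closed h.zero
    intro z hz
    have h1 := hv z hz
    rw [real_inner_smul_left, one_div, inv_mul_le_iff₀ hc]
    linarith
  have hvy : ⟪v, y⟫_ℝ = c := by
    have : y ∈ {z ∈ polar S | ⟪v, z⟫_ℝ = c} := hMv ▸ hyM
    exact this.2
  have hvx : (1 / c) • v = x := by
    rw [← hyx _ hvS, real_inner_smul_left, hvy]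
    field_simp
  have hmM : m ∈ minFace (polar S) y := by
    rw [hMv]
    refine ⟨hm, ?_⟩
    rw [← hvx, real_inner_smul_left] at hmx
    field_simp at hmx
    exact hmx
  obtain ⟨-, ε, hε, h1⟩ := hmM
  refine ⟨ε * t, by positivity, ?_⟩
  rw [hw, smul_smul] at h1
  exact h1

lemma new_facet (h : Bad S d) {F : Set E} (hF : IsFace S F) (hFd : dim F = d - 1) {x : E}
    (hx : x ∈ F) (hx0 : x ≠ 0) (hxf : IsFace S {x}) :
    ∃ (v : E) (c : ℝ), (∀ z ∈ S, ⟪v, z⟫_ℝ ≤ c) ∧ dim {z ∈ S | ⟪v, z⟫_ℝ = c} = d - 1 ∧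
      {z ∈ S | ⟪v, z⟫_ℝ = c} ∩ F = {x} := by
  classical
  have hd := h.hd
  have hxS : x ∈ S := hF.2.1 hx
  obtain ⟨y, hy, hyx⟩ := h.exposed_point hx0 hxf
  have hyx1 : ⟪x, y⟫_ℝ = 1 := (hyx x hxS).2 rfl
  have hFne : F ≠ S := by
    intro h1
    have := h.dim_self
    rw [← h1] at this
    omega
  obtain ⟨v, hv0, c, hv, hFv⟩ := h.exp F hF ⟨x, hx⟩ hFne
  have hc0 : 0 ≤ c := by simpa using hv 0 h.zero
  have hvF : ∀ z ∈ F, ⟪v, z⟫_ℝ = c := by
    intro z hz
    have : z ∈ {z ∈ S | ⟪v, z⟫_ℝ = c} := hFv ▸ hz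
    exact this.2
  -- another point of F
  obtain ⟨z1, hz1, hz1x⟩ : ∃ z ∈ F, z ≠ x := by
    by_contra hcon
    push Not at hcon
    have h1 : F ⊆ {x} := fun z hz => hcon z hz
    have h2 := dim_mono h1
    rw [dim_singleton] at h2
    omega
  by_contra hno
  -- the direction
  obtain ⟨w, hwx, hwF, hwm, hwS⟩ : ∃ w : E, ⟪x, w⟫_ℝ = 0 ∧ (∀ z ∈ F, ⟪z, w⟫_ℝ ≤ 0) ∧
      (∀ t : ℝ, 0 ≤ t → y + t • w ∈ polar S → ∃ m ∈ polar S, ⟪x, m⟫_ℝ = 1 ∧
        ∃ s : ℝ, 0 < s ∧ y + t • w - m = s • w) ∧ ¬ ∀ z ∈ S, ⟪z, w⟫_ℝ ≤ 0 := by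
    rcases hc0.eq_or_lt with hc | hc
    · refine ⟨-v, ?_, ?_, ?_, ?_⟩
      · rw [inner_neg_right, real_inner_comm, hvF x hx, ← hc, neg_zero]
      · intro z hz
        rw [inner_neg_right, real_inner_comm, hvF z hz, ← hc, neg_zero]
      · intro t ht hyt
        refine ⟨y + t • -v + v, ?_, ?_, 1, one_pos, ?_⟩
        · intro z hz
          have h1 := hyt z hz
          have h2 := hv z hz
          rw [inner_add_right, real_inner_comm v z]
          linarith
        · rw [inner_add_right, inner_add_right, inner_smul_right, inner_neg_right,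
            real_inner_comm v x, hvF x hx, hyx1, ← hc]
          ring
        · module
      · intro hneg
        apply hFne
        rw [hFv]
        ext z
        refine ⟨fun hz => hz.1, fun hz => ⟨hz, ?_⟩⟩
        have h1 := hneg z hz
        have h2 := hv z hz
        rw [inner_neg_right, real_inner_comm] at h1
        linarith
    · have hm : (1 / c) • v ∈ polar S := by
        intro z hz
        have h1 := hv z hz
        rw [inner_smul_right, real_inner_comm, one_div, inv_mul_le_iff₀ hc]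
        linarith
      have hmF : ∀ z ∈ F, ⟪z, (1 / c) • v⟫_ℝ = 1 := by
        intro z hz
        rw [inner_smul_right, real_inner_comm, hvF z hz]
        field_simp
      refine ⟨y - (1 / c) • v, ?_, ?_, ?_, ?_⟩
      · rw [inner_sub_right, hyx1, hmF x hx, sub_self]
      · intro z hz
        rw [inner_sub_right, hmF z hz]
        have := hy z (hF.2.1 hz)
        linarith
      · intro t ht _
        exact ⟨_, hm, hmF x hx, 1 + t, by positivity, by module⟩
      · intro hneg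
        have hz1w : ⟪z1, y - (1 / c) • v⟫_ℝ ≠ 0 := by
          rw [inner_sub_right, hmF z1 hz1]
          intro h1
          exact hz1x ((hyx z1 (hF.2.1 hz1)).1 (by linarith))
        have hv' : ∀ z ∈ S, ⟪y - (1 / c) • v, z⟫_ℝ ≤ 0 := by
          intro z hz
          rw [real_inner_comm]
          exact hneg z hz
        have hxw : ⟪y - (1 / c) • v, x⟫_ℝ = 0 := by
          rw [real_inner_comm, inner_sub_right, hyx1, hmF x hx, sub_self]
        refine hno ⟨_, 0, hv', ?_, ?_⟩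
        · rcases h.dim_exposed hv' hxS hxw (hF.2.1 hz1) (by rwa [real_inner_comm]) with h1 | h1
          · exfalso
            exact dim_pos_of_ne (A := {z ∈ S | ⟪y - (1 / c) • v, z⟫_ℝ = 0}) ⟨hxS, hxw⟩
              ⟨h.zero, by simp⟩ hx0 h1
          · exact h1
        · ext z
          constructor
          · rintro ⟨⟨hz, hz'⟩, hzF⟩
            rw [real_inner_comm, inner_sub_right, hmF z hzF] at hz'
            exact (hyx z hz).1 (by linarith)
          · rintro rfl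
            exact ⟨⟨hxS, hxw⟩, hx⟩
  -- the points of the ray expose only x
  have hray : ∀ t : ℝ, 0 ≤ t → y + t • w ∈ polar S →
      ∃ ε : ℝ, 0 < ε ∧ y + t • w + ε • w ∈ polar S := by
    intro t ht hyt
    have hxt : ⟪x, y + t • w⟫_ℝ = 1 := by
      rw [inner_add_right, inner_smul_right, hwx, hyx1]
      ring
    have hv' : ∀ z ∈ S, ⟪y + t • w, z⟫_ℝ ≤ 1 := by
      intro z hz
      rw [real_inner_comm]
      exact hyt z hz
    have hxt' : ⟪y + t • w, x⟫_ℝ = 1 := by rw [real_inner_comm]; exact hxt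
    have honly : ∀ z ∈ S, ⟪z, y + t • w⟫_ℝ = 1 ↔ z = x := by
      rcases h.dim_exposed hv' hxS hxt' h.zero (by simp) with h1 | h1
      · intro z hz
        constructor
        · intro hz'
          exact eq_of_dim_zero h1 (A := {z ∈ S | ⟪y + t • w, z⟫_ℝ = 1})
            ⟨hz, by rw [real_inner_comm]; exact hz'⟩ ⟨hxS, hxt'⟩
        · rintro rfl
          exact hxt
      · exfalso
        refine hno ⟨_, 1, hv', h1, ?_⟩
        ext z
        constructor
        · rintro ⟨⟨hz, hz'⟩, hzF⟩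
          rw [real_inner_comm, inner_add_right, inner_smul_right] at hz'
          have h2 := hwF z hzF
          have h3 := hy z hz
          have h4 : t * ⟪z, w⟫_ℝ ≤ 0 := mul_nonpos_of_nonneg_of_nonpos ht h2
          exact (hyx z hz).1 (by linarith)
        · rintro rfl
          exact ⟨⟨hxS, hxt'⟩, hx⟩
    obtain ⟨m, hm, hmx, s, hs, hms⟩ := hwm t ht hyt
    exact h.extend hyt hxS honly hm hmx hs hms
  -- so the ray is in the polar
  let T : Set ℝ := {t | 0 ≤ t ∧ y + t • w ∈ polar S}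
  have hT0 : (0 : ℝ) ∈ T := ⟨le_rfl, by simpa using hy⟩
  have hTc : IsClosed T := by
    have h1 : T = Set.Ici 0 ∩ ⋂ z ∈ S, {t : ℝ | ⟪z, y + t • w⟫_ℝ ≤ 1} := by
      ext t
      simp [T, polar]
    rw [h1]
    refine isClosed_Ici.inter (isClosed_biInter fun z _ => ?_)
    exact isClosed_le (by fun_prop) continuous_const
  have hTb : ¬ BddAbove T := by
    intro hb
    obtain ⟨h1, h2⟩ := hTc.csSup_mem ⟨0, hT0⟩ hb
    obtain ⟨ε, hε, h3⟩ := hray _ h1 h2
    have h4 : sSup T + ε ∈ T := by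
      refine ⟨by positivity, ?_⟩
      convert h3 using 1
      module
    have h5 := le_csSup hb h4
    linarith
  have hTall : ∀ t : ℝ, 0 ≤ t → y + t • w ∈ polar S := by
    intro t ht
    rw [not_bddAbove_iff] at hTb
    obtain ⟨t', ht', htt'⟩ := hTb t
    exact shrink (convex_polar S) hy ht'.2 ht htt'.le
  apply hwS
  intro z hz
  by_contra hcon
  push Not at hcon
  have h1 := hTall ((1 - ⟪z, y⟫_ℝ + 1) / ⟪z, w⟫_ℝ) (by
    have := hy z hz
    apply div_nonneg _ hcon.le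
    linarith) z hz
  rw [inner_add_right, inner_smul_right, div_mul_cancel₀ _ hcon.ne'] at h1
  linarith

end Bad

end Pool.Agent.Q52.Spec
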