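import Pool.Agent.Q52.Spec.Defs

set_option autoImplicit false

namespace Pool.Agent.Q52.Spec

open scoped InnerProductSpace

variable {E : Type*} [NormedAddCommGroup E] [InnerProductSpace ℝ E]

/-- the smallest face containing `y` -/
def minFace (C : Set E) (y : E) : Set E := {m ∈ C | ∃ ε : ℝ, 0 < ε ∧ y + ε • (y - m) ∈ C}

lemma mem_minFace_self {C : Set E} {y : E} (hy : y ∈ C) : y ∈ minFace C y :=
  ⟨hy, 1, one_pos, by simpa using hy⟩

/-- shrinking -/
lemma shrink {C : Set E} (hC : Convex ℝ C) {y w : E} (hy : y ∈ C) {ε δ : ℝ} (h : y + ε • w ∈ C)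
    (hδ : 0 ≤ δ) (hδε : δ ≤ ε) : y + δ • w ∈ C := by
  rcases hδ.eq_or_lt with rfl | hδ
  · simpa using hy
  have hε : 0 < ε := hδ.trans_le hδε
  have := hC hy h (a := 1 - δ / ε) (b := δ / ε) (by rw [sub_nonneg]; exact (div_le_one hε).2 hδε)
    (by positivity) (by ring)
  convert this using 1
  rw [smul_add, smul_smul, div_mul_cancel₀ _ hε.ne', ← add_assoc, ← add_smul]
  simp

lemma isFace_minFace {C : Set E} (hC : Convex ℝ C) {y : E} (hy : y ∈ C) :
    IsFace C (minFace C y) := by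
  refine ⟨?_, fun m hm => hm.1, ?_⟩
  · rintro m ⟨hm, ε, hε, h1⟩ m' ⟨hm', ε', hε', h2⟩ a b ha hb hab
    refine ⟨hC hm hm' ha hb hab, min ε ε', lt_min hε hε', ?_⟩
    have h3 := shrink hC hy h1 (le_min hε.le hε'.le) (min_le_left _ _)
    have h4 := shrink hC hy h2 (le_min hε.le hε'.le) (min_le_right _ _)
    have h5 := hC h3 h4 ha hb hab
    convert h5 using 1
    have : y = a • y + b • y := by rw [← add_smul, hab, one_smul]
    generalize min ε ε' = t
    have e1 : y + t • (y - (a • m + b • m')) = (a • y + b • y) +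
        t • ((a • y + b • y) - (a • m + b • m')) := by rw [← this]
    rw [e1]
    module
  · rintro p hp q hq ⟨z, ⟨a, b, ha, hb, hab, rfl⟩, -, ε, hε, hw⟩
    have key : ∀ (p q : E) (a b : ℝ), p ∈ C → q ∈ C → 0 < a → 0 < b → a + b = 1 →
        y + ε • (y - (a • p + b • q)) ∈ C → p ∈ minFace C y := by
      intro p q a b hp hq ha hb hab hw
      refine ⟨hp, ε * a / (1 + ε * b), by positivity, ?_⟩
      have hpos : 0 < 1 + ε * b := by positivity
      have h := hC hw hq (a := 1 / (1 + ε * b)) (b := ε * b / (1 + ε * b)) (by positivity)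
        (by positivity) (by field_simp)
      convert h using 1
      have ha' : a = 1 - b := by linarith
      subst ha'
      have e2 : (1 : ℝ) + ε * (1 - b) / (1 + ε * b) = (1 + ε) / (1 + ε * b) := by
        field_simp; ring
      have : y + (ε * (1 - b) / (1 + ε * b)) • (y - p) =
          ((1 : ℝ) + ε * (1 - b) / (1 + ε * b)) • y - (ε * (1 - b) / (1 + ε * b)) • p := by
        module
      rw [this, e2]
      have e3 : (1 / (1 + ε * b)) • (y + ε • (y - ((1 - b) • p + b • q))) +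
          (ε * b / (1 + ε * b)) • q =
          ((1 + ε) / (1 + ε * b)) • y - (ε * (1 - b) / (1 + ε * b)) • p := by
        have : (1 / (1 + ε * b)) • (y + ε • (y - ((1 - b) • p + b • q))) =
          ((1 + ε) / (1 + ε * b)) • y - (ε * (1 - b) / (1 + ε * b)) • p -
            (ε * b / (1 + ε * b)) • q := by
          have h1 : (1 + ε) / (1 + ε * b) = (1 + ε) * (1 / (1 + ε * b)) := by ring
          have h2 : ε * (1 - b) / (1 + ε * b) = ε * (1 - b) * (1 / (1 + ε * b)) := by ring
          have h3 : ε * b / (1 + ε * b) = ε * b * (1 / (1 + ε * b)) := by ring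
          rw [h1, h2, h3]
          generalize 1 / (1 + ε * b) = t
          module
        rw [this]
        module
      rw [e3]
    refine ⟨key p q a b hp hq ha hb hab hw, key q p b a hq hp hb ha (by linarith) ?_⟩
    rw [add_comm (b • q)]
    exact hw

lemma minFace_subset {C F : Set E} (hF : IsFace C F) {y : E} (hy : y ∈ F) :
    minFace C y ⊆ F := by
  rintro m ⟨hm, ε, hε, h⟩
  refine (hF.2.2 m hm _ h ⟨y, ?_, hy⟩).1
  refine ⟨ε / (1 + ε), 1 / (1 + ε), by positivity, by positivity, by field_simp; ring, ?_⟩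
  have h1 : ε / (1 + ε) = ε * (1 / (1 + ε)) := by ring
  have h2 : (1 / (1 + ε)) * (1 + ε) = 1 := by field_simp
  rw [h1]
  generalize 1 / (1 + ε) = t at h2 ⊢
  have : (ε * t) • m + t • (y + ε • (y - m)) = (t * (1 + ε)) • y := by module
  rw [this, h2, one_smul]

lemma isFace_exposed {C : Set E} (hC : Convex ℝ C) {v : E} {c : ℝ}
    (h : ∀ x ∈ C, ⟪v, x⟫_ℝ ≤ c) : IsFace C {x ∈ C | ⟪v, x⟫_ℝ = c} := by
  refine ⟨?_, fun x hx => hx.1, ?_⟩
  · rintro x ⟨hx, h1⟩ y ⟨hy, h2⟩ a b ha hb hab
    refine ⟨hC hx hy ha hb hab, ?_⟩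
    rw [inner_add_right, inner_smul_right, inner_smul_right, h1, h2, ← add_mul, hab, one_mul]
  · rintro x hx y hy ⟨z, ⟨a, b, ha, hb, hab, rfl⟩, -, hz⟩
    rw [inner_add_right, inner_smul_right, inner_smul_right] at hz
    have h1 := h x hx
    have h2 := h y hy
    refine ⟨⟨hx, ?_⟩, ⟨hy, ?_⟩⟩
    · by_contra hne
      have h3 : ⟪v, x⟫_ℝ < c := lt_of_le_of_ne h1 hne
      have h4 := mul_lt_mul_of_pos_left h3 ha
      have h5 := mul_le_mul_of_nonneg_left h2 hb.le
      have h6 : a * c + b * c = c := by rw [← add_mul, hab, one_mul]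
      linarith
    · by_contra hne
      have h3 : ⟪v, y⟫_ℝ < c := lt_of_le_of_ne h2 hne
      have h4 := mul_lt_mul_of_pos_left h3 hb
      have h5 := mul_le_mul_of_nonneg_left h1 ha.le
      have h6 : a * c + b * c = c := by rw [← add_mul, hab, one_mul]
      linarith

/-- an exposed face is nonempty proper if the functional is not constant -/
lemma IsFace.trans {C F G : Set E} (hF : IsFace C F) (hG : IsFace C G) : IsFace C (F ∩ G) := by
  refine ⟨hF.1.inter hG.1, fun x hx => hF.2.1 hx.1, ?_⟩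
  rintro x hx y hy ⟨z, hz, hzF, hzG⟩
  obtain ⟨h1, h2⟩ := hF.2.2 x hx y hy ⟨z, hz, hzF⟩
  obtain ⟨h3, h4⟩ := hG.2.2 x hx y hy ⟨z, hz, hzG⟩
  exact ⟨⟨h1, h3⟩, h2, h4⟩

lemma isFace_self {C : Set E} (hC : Convex ℝ C) : IsFace C C :=
  ⟨hC, subset_rfl, fun _ hx _ hy _ => ⟨hx, hy⟩⟩

/-- The bipolar theorem -/
lemma mem_of_bipolar [FiniteDimensional ℝ E] {S : Set E} (hS : Convex ℝ S) (hc : IsClosed S)
    (h0 : (0 : E) ∈ S) {x : E} (h : ∀ y ∈ polar S, ⟪x, y⟫_ℝ ≤ 1) : x ∈ S := by
  by_contra hx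
  obtain ⟨f, u, hfu, hux⟩ := geometric_hahn_banach_closed_point hS hc hx
  have hu : 0 < u := by simpa using hfu 0 h0
  let v : E := (InnerProductSpace.toDual ℝ E).symm f
  have hv : ∀ z, ⟪v, z⟫_ℝ = f z := fun z => InnerProductSpace.toDual_symm_apply
  have h1 : (1 / u) • v ∈ polar S := by
    intro z hz
    rw [inner_smul_right, real_inner_comm, hv]
    have := hfu z hz
    rw [one_div, inv_mul_le_iff₀ hu]
    linarith
  have h2 := h _ h1
  rw [inner_smul_right, real_inner_comm, hv, one_div, inv_mul_le_iff₀ hu] at h2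
  linarith

lemma convex_polar (S : Set E) : Convex ℝ (polar S) := by
  intro y hy z hz a b ha hb hab x hx
  rw [inner_add_right, inner_smul_right, inner_smul_right]
  have h1 := hy x hx
  have h2 := hz x hx
  nlinarith

lemma zero_mem_polar (S : Set E) : (0 : E) ∈ polar S := by
  intro x _
  simp

end Pool.Agent.Q52.Spec
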