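import Pool.Agent.Q52.Spec.Count

set_option autoImplicit false

namespace Pool.Agent.Q52.Spec

open scoped InnerProductSpace

variable {E : Type*} [NormedAddCommGroup E] [InnerProductSpace ℝ E]

/-- a closed convex set containing a line is invariant in its direction -/
lemma add_mem_of_line {S : Set E} (hS : Convex ℝ S) (hc : IsClosed S) {f w e : E}
    (hf : ∀ t : ℝ, f + t • w ∈ S) (he : e ∈ S) : e + w ∈ S := by
  have h1 : Filter.Tendsto (fun t : ℝ => (1 - t) • e + t • f + w) (nhdsWithin 0 (Set.Ioi 0))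
      (nhds (e + w)) := by
    have h2 : Filter.Tendsto (fun t : ℝ => (1 - t) • e + t • f + w) (nhds 0)
        (nhds ((1 - (0 : ℝ)) • e + (0 : ℝ) • f + w)) := Continuous.tendsto (by fun_prop) 0
    simp only [sub_zero, one_smul, zero_smul, add_zero] at h2
    exact h2.mono_left nhdsWithin_le_nhds
  refine hc.mem_of_tendsto h1 ?_
  have h3 : Set.Ioo (0 : ℝ) 1 ∈ nhdsWithin (0 : ℝ) (Set.Ioi 0) := Ioo_mem_nhdsGT one_pos
  filter_upwards [h3] with t ht
  have h4 := hS he (hf (1 / t)) (a := 1 - t) (b := t) (by linarith [ht.2]) ht.1.le (by ring)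
  convert h4 using 1
  rw [smul_add, smul_smul, mul_one_div_cancel ht.1.ne', one_smul]
  abel

variable [FiniteDimensional ℝ E]

namespace Bad

variable {S : Set E} {d : ℕ}

lemma exists_extreme (h : Bad S d) : ∃ e, IsFace S {e} := by
  have h1 : 0 ∈ signature S := by rw [h.sig]; simp
  obtain ⟨F, hF, ⟨e, he⟩, hd⟩ := h1
  refine ⟨e, ?_⟩
  have : F = {e} := by
    ext x
    constructor
    · intro hx
      exact eq_of_dim_zero hd hx he
    · rintro rfl
      exact he
  rw [← this]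
  exact hF

/-- no lines -/
lemma exists_notMem (h : Bad S d) (f : E) {w : E} (hw : w ≠ 0) : ∃ t : ℝ, f + t • w ∉ S := by
  by_contra hcon
  push Not at hcon
  obtain ⟨e, he⟩ := h.exists_extreme
  have heS : e ∈ S := he.2.1 rfl
  have h1 := add_mem_of_line h.conv h.closed hcon heS
  have h2 : e + -w ∈ S := by
    refine add_mem_of_line h.conv h.closed (f := f) (fun t => ?_) heS
    have := hcon (-t)
    rwa [smul_neg, ← neg_smul]
  have h3 := he.2.2 _ h1 _ h2 ⟨e, ⟨1 / 2, 1 / 2, by norm_num, by norm_num, by norm_num, by module⟩,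
    rfl⟩
  have h4 : e + w = e := h3.1
  exact hw (by simpa using h4)

omit [FiniteDimensional ℝ E] in
lemma exists_facet (h : Bad S d) : ∃ F, IsFace S F ∧ F.Nonempty ∧ dim F = d - 1 := by
  have h1 : d - 1 ∈ signature S := by rw [h.sig]; simp
  exact h1

/-- three affinely independent points -/
lemma exists_triangle {F : Set E} (hF : F.Nonempty) (hd : 2 ≤ dim F) :
    ∃ a ∈ F, ∃ b ∈ F, ∃ c ∈ F, ∀ s t : ℝ, s • (b - a) + t • (c - a) = 0 → s = 0 ∧ t = 0 := by
  obtain ⟨a, ha⟩ := hF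
  have hex : ∃ b ∈ F, b ≠ a := by
    by_contra hcon
    push Not at hcon
    have h1 : F ⊆ {a} := fun z hz => hcon z hz
    have h2 := dim_mono h1
    rw [dim_singleton] at h2
    omega
  obtain ⟨b, hb, hba⟩ := hex
  have hex2 : ∃ c ∈ F, c - a ∉ Submodule.span ℝ {b - a} := by
    by_contra hcon
    push Not at hcon
    have h1 : vectorSpan ℝ F ≤ Submodule.span ℝ {b - a} := by
      rw [vectorSpan_def, Submodule.span_le]
      rintro _ ⟨x, hx, y, hy, rfl⟩
      have : x - y = (x - a) - (y - a) := by abel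
      change x - y ∈ _
      rw [this]
      exact Submodule.sub_mem _ (hcon x hx) (hcon y hy)
    have h2 := Submodule.finrank_mono h1
    have h3 : Module.finrank ℝ (Submodule.span ℝ {b - a}) ≤ 1 := by
      have := finrank_span_le_card (R := ℝ) ({b - a} : Set E)
      simpa using this
    unfold dim at hd
    omega
  obtain ⟨c, hc, hca⟩ := hex2
  refine ⟨a, ha, b, hb, c, hc, fun s t hst => ?_⟩
  have ht : t = 0 := by
    by_contra ht
    apply hca
    rw [Submodule.mem_span_singleton]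
    refine ⟨-s / t, ?_⟩
    have h1 : t • (c - a) = (-s) • (b - a) := by
      rw [neg_smul]
      exact eq_neg_of_add_eq_zero_right hst
    have h2 : (c - a) = (1 / t) • (t • (c - a)) := by
      rw [smul_smul, one_div_mul_cancel ht, one_smul]
    rw [h2, h1, smul_smul]
    congr 1
    ring
  subst ht
  rw [zero_smul, add_zero] at hst
  refine ⟨?_, rfl⟩
  rcases smul_eq_zero.1 hst with h1 | h1
  · exact h1
  · exact absurd (sub_eq_zero.1 h1) hba

/-- Exits of rays through the centre of the triangle are extreme points. -/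
lemma exit_point (h : Bad S d) {F : Set E} (hF : IsFace S F) (hFd : dim F = d - 1) {f w : E}
    (hfF : f ∈ F) (hin : ∃ ε : ℝ, 0 < ε ∧ f + ε • w ∈ F) (hFw : ∀ t : ℝ, f + t • w ∈ S →
      f + t • w ∈ F) (hout : f + (1 : ℝ) • w ∉ S) :
    ∃ t : ℝ, 0 < t ∧ f + t • w ∈ F ∧ IsFace S {f + t • w} := by
  have hd := h.hd
  have hfS := hF.2.1 hfF
  let T : Set ℝ := {t | 0 ≤ t ∧ f + t • w ∈ S}
  have hT0 : (0 : ℝ) ∈ T := ⟨le_rfl, by simpa using hfS⟩
  have hTb : BddAbove T := by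
    refine ⟨1, fun t ht => ?_⟩
    by_contra hcon
    push Not at hcon
    exact hout (shrink h.conv hfS ht.2 zero_le_one hcon.le)
  have hTc : IsClosed T := by
    have h1 : IsClosed {t : ℝ | f + t • w ∈ S} := h.closed.preimage (by fun_prop)
    exact isClosed_Ici.inter h1
  obtain ⟨h1, h2⟩ := hTc.csSup_mem ⟨0, hT0⟩ hTb
  set τ := sSup T with hτ
  obtain ⟨ε, hε, hεF⟩ := hin
  have hτpos : 0 < τ := by
    have : ε ≤ τ := le_csSup hTb ⟨hε.le, hF.2.1 hεF⟩
    linarith
  have hxF := hFw τ h2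
  refine ⟨τ, hτpos, hxF, ?_⟩
  set x := f + τ • w with hx
  have hM := isFace_minFace h.conv h2
  have hxM := mem_minFace_self h2
  have hMF : minFace S x ⊆ F := minFace_subset hF hxF
  have hfM : f ∉ minFace S x := by
    rintro ⟨-, δ, hδ, h3⟩
    have h4 : x + δ • (x - f) = f + (τ + δ * τ) • w := by
      rw [hx]
      module
    rw [h4] at h3
    have h5 : τ + δ * τ ∈ T := ⟨by positivity, h3⟩
    have h6 := le_csSup hTb h5
    have : 0 < δ * τ := by positivity
    linarith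
  have hFne : F ≠ S := by
    intro h1
    have := h.dim_self
    rw [← h1] at this
    omega
  have hMne : minFace S x ≠ S := by
    intro h3
    exact hfM (h3.symm.subset hfS)
  have hMd : dim (minFace S x) = 0 := by
    have h3 := dim_mono hMF
    rcases h.dim_face hM ⟨x, hxM⟩ with h4 | h4 | h4
    · exact h4
    · exfalso
      obtain ⟨v, -, c, hv, hMv⟩ := h.exp _ hM ⟨x, hxM⟩ hMne
      have hc : ∀ z ∈ minFace S x, ⟪v, z⟫_ℝ = c := by
        intro z hz
        have : z ∈ {z ∈ S | ⟪v, z⟫_ℝ = c} := hMv ▸ hz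
        exact this.2
      have h5 := const_of_dim_eq hMF ⟨x, hxM⟩ (by rw [h4, hFd]) hc f hfF
      apply hfM
      rw [hMv]
      exact ⟨hfS, h5⟩
    · omega
  have : minFace S x = {x} := by
    ext z
    constructor
    · intro hz
      exact eq_of_dim_zero hMd hz hxM
    · rintro rfl
      exact hxM
  rw [← this]
  exact hM

omit [FiniteDimensional ℝ E] in
lemma three_mem {F : Set E} (hF : Convex ℝ F) {a b c : E} (ha : a ∈ F) (hb : b ∈ F)
    (hc : c ∈ F) {α β γ : ℝ} (hα : 0 ≤ α) (hβ : 0 ≤ β) (hγ : 0 ≤ γ) (h : α + β + γ = 1) :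
    α • a + β • b + γ • c ∈ F := by
  have h1 := hF.sum_mem (t := Finset.univ) (w := ![α, β, γ]) (z := ![a, b, c])
    (by intro i _; fin_cases i <;> simpa) (by simp [Fin.sum_univ_three, h])
    (by intro i _; fin_cases i <;> simpa)
  simpa [Fin.sum_univ_three] using h1

/-- two different facets have at most one point in common -/
lemma facets_inter (h : Bad S d) {v w : E} {c e : ℝ} (hv : ∀ z ∈ S, ⟪v, z⟫_ℝ ≤ c)
    (hw : ∀ z ∈ S, ⟪w, z⟫_ℝ ≤ e) (hvd : dim {z ∈ S | ⟪v, z⟫_ℝ = c} = d - 1) {x : E} (hx : x ∈ S)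
    (hxv : ⟪v, x⟫_ℝ = c) (hxw : ⟪w, x⟫_ℝ ≠ e) {a b : E} (ha : a ∈ S) (hb : b ∈ S)
    (hav : ⟪v, a⟫_ℝ = c) (haw : ⟪w, a⟫_ℝ = e) (hbv : ⟪v, b⟫_ℝ = c) (hbw : ⟪w, b⟫_ℝ = e) :
    a = b := by
  have hd := h.hd
  have hG := (isFace_exposed h.conv hv).trans (isFace_exposed h.conv hw)
  set G := {z ∈ S | ⟪v, z⟫_ℝ = c} ∩ {z ∈ S | ⟪w, z⟫_ℝ = e} with hGdef
  have haG : a ∈ G := ⟨⟨ha, hav⟩, ha, haw⟩
  have hbG : b ∈ G := ⟨⟨hb, hbv⟩, hb, hbw⟩
  have hsub : G ⊆ {z ∈ S | ⟪v, z⟫_ℝ = c} := Set.inter_subset_left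
  have h3 := dim_mono hsub
  rcases h.dim_face hG ⟨a, haG⟩ with h4 | h4 | h4
  · exact eq_of_dim_zero h4 haG hbG
  · exfalso
    exact hxw (const_of_dim_eq hsub ⟨a, haG⟩ (by rw [h4, hvd]) (fun z hz => hz.2.2) x ⟨hx, hxv⟩)
  · omega

theorem elim (h : Bad S d) : False := by
  have hd := h.hd
  obtain ⟨F, hF, hFne, hFd⟩ := h.exists_facet
  obtain ⟨a, ha, b, hb, c, hc, hli⟩ := exists_triangle hFne (by omega)
  have hFneS : F ≠ S := by
    intro h1
    have := h.dim_self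
    rw [← h1] at this
    omega
  obtain ⟨v, -, e, hv, hFv⟩ := h.exp F hF hFne hFneS
  have hvF : ∀ z ∈ F, ⟪v, z⟫_ℝ = e := by
    intro z hz
    have : z ∈ {z ∈ S | ⟪v, z⟫_ℝ = e} := hFv ▸ hz
    exact this.2
  obtain ⟨f, hf⟩ : ∃ f : E, f = (1 / 3 : ℝ) • a + (1 / 3 : ℝ) • b + (1 / 3 : ℝ) • c := ⟨_, rfl⟩
  have hfF : f ∈ F := by
    rw [hf]
    exact three_mem hF.1 ha hb hc (by norm_num) (by norm_num) (by norm_num) (by norm_num)
  have hu1 : b - a ≠ 0 := by
    intro h1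
    have := (hli 1 0 (by rw [h1]; simp)).1
    norm_num at this
  obtain ⟨t0, ht0⟩ := h.exists_notMem f hu1
  have ht0' : t0 ≠ 0 := by
    rintro rfl
    apply ht0
    simpa using hF.2.1 hfF
  -- nearby points
  obtain ⟨δ, hδ, hout⟩ : ∃ δ : ℝ, 0 < δ ∧ ∀ s ∈ Set.Ioo (-δ) δ,
      f + (1 : ℝ) • (t0 • (b - a) + s • (c - a)) ∉ S := by
    have h1 : IsOpen {s : ℝ | f + (1 : ℝ) • (t0 • (b - a) + s • (c - a)) ∉ S} :=
      h.closed.isOpen_compl.preimage (f := fun s : ℝ => f + (1 : ℝ) • (t0 • (b - a) + s • (c - a)))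
        (by fun_prop)
    have h2 : (0 : ℝ) ∈ {s : ℝ | f + (1 : ℝ) • (t0 • (b - a) + s • (c - a)) ∉ S} := by
      change f + (1 : ℝ) • (t0 • (b - a) + (0 : ℝ) • (c - a)) ∉ S
      simpa using ht0
    obtain ⟨δ, hδ, h3⟩ := Metric.isOpen_iff.1 h1 0 h2
    refine ⟨δ, hδ, fun s hs => h3 ?_⟩
    rw [Metric.mem_ball, Real.dist_eq, sub_zero, abs_lt]
    exact hs
  have hex : ∀ s : Set.Ioo (-δ) δ, ∃ t : ℝ, 0 < t ∧
      f + t • (t0 • (b - a) + (s : ℝ) • (c - a)) ∈ F ∧
      IsFace S {f + t • (t0 • (b - a) + (s : ℝ) • (c - a))} := by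
    rintro ⟨s, hs⟩
    refine h.exit_point hF hFd hfF ?_ ?_ (hout s hs)
    · obtain ⟨ε, hε⟩ : ∃ ε : ℝ, ε = 1 / (3 * (|t0| + |s| + 1)) := ⟨_, rfl⟩
      have hεpos : 0 < ε := by rw [hε]; positivity
      have hεb : ε * (|t0| + |s| + 1) = 1 / 3 := by
        rw [hε]
        field_simp
      have e1 : ε * |t0| + ε * |s| ≤ 1 / 3 := by nlinarith
      have a1 := mul_le_mul_of_nonneg_left (neg_abs_le t0) hεpos.le
      have a2 := mul_le_mul_of_nonneg_left (neg_abs_le s) hεpos.le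
      have a3 := mul_le_mul_of_nonneg_left (le_abs_self t0) hεpos.le
      have a4 := mul_le_mul_of_nonneg_left (le_abs_self s) hεpos.le
      have a5 : 0 ≤ ε * |t0| := by positivity
      have a6 : 0 ≤ ε * |s| := by positivity
      refine ⟨ε, hεpos, ?_⟩
      have h1 := three_mem hF.1 ha hb hc (α := 1 / 3 - ε * t0 - ε * s) (β := 1 / 3 + ε * t0)
        (γ := 1 / 3 + ε * s) (by linarith) (by linarith) (by linarith) (by ring)
      convert h1 using 1
      rw [hf]
      module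
    · intro t ht
      rw [hFv]
      refine ⟨ht, ?_⟩
      simp only [inner_add_right, inner_smul_right, inner_sub_right, hvF a ha, hvF b hb,
        hvF c hc, hvF f hfF]
      ring
  choose τ hτ hτF hτx using hex
  let x : Set.Ioo (-δ) δ → E := fun s => f + τ s • (t0 • (b - a) + (s : ℝ) • (c - a))
  have hinj : Function.Injective x := by
    intro s s' hss
    have h1 : τ s • (t0 • (b - a) + (s : ℝ) • (c - a)) =
        τ s' • (t0 • (b - a) + (s' : ℝ) • (c - a)) := add_left_cancel hss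
    have h2 : (τ s * t0 - τ s' * t0) • (b - a) + (τ s * s - τ s' * s') • (c - a) = 0 := by
      rw [← sub_eq_zero] at h1
      rw [← h1]
      module
    obtain ⟨h3, h4⟩ := hli _ _ h2
    have h5 : τ s = τ s' := by
      have : (τ s - τ s') * t0 = 0 := by rw [sub_mul]; exact h3
      rcases mul_eq_zero.1 this with h6 | h6
      · linarith
      · exact absurd h6 ht0'
    rw [← h5, ← mul_sub] at h4
    rcases mul_eq_zero.1 h4 with h6 | h6
    · exact absurd h6 (hτ s).ne'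
    · exact Subtype.ext (by linarith)
  have hfac : ∀ s : {s : Set.Ioo (-δ) δ // x s ≠ 0}, ∃ (v : E) (c : ℝ),
      (∀ z ∈ S, ⟪v, z⟫_ℝ ≤ c) ∧ dim {z ∈ S | ⟪v, z⟫_ℝ = c} = d - 1 ∧
      {z ∈ S | ⟪v, z⟫_ℝ = c} ∩ F = {x s.1} :=
    fun s => h.new_facet hF hFd (hτF s.1) s.2 (hτx s.1)
  choose v' c' hv' hvd' hvF' using hfac
  have hxS : ∀ s, x s ∈ S := fun s => hF.2.1 (hτF s)
  have hxv : ∀ s, ⟪v' s, x s.1⟫_ℝ = c' s := by
    intro s
    have h1 : x s.1 ∈ {z ∈ S | ⟪v' s, z⟫_ℝ = c' s} ∩ F := by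
      rw [hvF']
      rfl
    exact h1.1.2
  have hcount : Countable {s : Set.Ioo (-δ) δ // x s ≠ 0} := by
    refine countable_facets h.conv h.zero (d := d) (by omega) h.dim_self v' c' hv' hvd' ?_
    intro i j hne p hp q hq h1 h2 h3 h4
    refine h.facets_inter (hv' i) (hv' j) (hvd' i) (hxS i.1) (hxv i) ?_ hp hq h1 h2 h3 h4
    intro h5
    have h6 : x i.1 ∈ {z ∈ S | ⟪v' j, z⟫_ℝ = c' j} ∩ F := ⟨⟨hxS i.1, h5⟩, hτF i.1⟩
    rw [hvF' j] at h6
    exact hne (Subtype.ext (hinj h6))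
  have h1 : (Set.univ : Set (Set.Ioo (-δ) δ)).Countable := by
    have h2 : (Set.univ : Set (Set.Ioo (-δ) δ)) = {s | x s ≠ 0} ∪ {s | x s = 0} := by
      ext s
      simp [em']
    rw [h2]
    refine Set.Countable.union ?_ ?_
    · exact hcount
    · refine Set.Subsingleton.countable ?_
      intro s hs s' hs'
      exact hinj (hs.trans hs'.symm)
  have h2 : (Set.Ioo (-δ) δ).Countable := by
    rw [Set.countable_univ_iff] at h1
    exact h1
  rw [Cardinal.Real.Ioo_countable_iff] at h2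
  linarith

end Bad

end Pool.Agent.Q52.Spec
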