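import Pool.Agent.Q52.Spec.Min

set_option autoImplicit false

namespace Pool.Agent.Q52.Spec

open scoped InnerProductSpace

variable {E : Type*} [NormedAddCommGroup E] [InnerProductSpace ℝ E]

/-- the polar of a ball outside of the origin -/
def Qset (P : E →ₗ[ℝ] E) (c : E) : Set E := {y | P y = y ∧ ‖y‖ + ⟪c, y⟫_ℝ ≤ 1}

lemma exists_pos_step {U : Set E} (hU : IsOpen U) {o : E} (ho : o ∈ U) (w : E) :
    ∃ ε : ℝ, 0 < ε ∧ o + ε • w ∈ U := by
  have h1 : Filter.Tendsto (fun t : ℝ => o + t • w) (nhds 0) (nhds (o + (0 : ℝ) • w)) :=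
    Continuous.tendsto (by fun_prop) 0
  rw [zero_smul, add_zero] at h1
  have h2 := h1 (hU.mem_nhds ho)
  rw [Filter.mem_map, Metric.mem_nhds_iff] at h2
  obtain ⟨ε, hε, h3⟩ := h2
  refine ⟨ε / 2, by positivity, h3 ?_⟩
  rw [Metric.mem_ball, Real.dist_eq, sub_zero, abs_of_pos (by positivity)]
  linarith

theorem faciallyExposed_Q (P : E →ₗ[ℝ] E) (c : E) : FaciallyExposed (Qset P c) := by
  intro G hG hne hGQ
  -- all points of G are on the boundary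
  have hbd : ∀ y ∈ G, ‖y‖ + ⟪c, y⟫_ℝ = 1 := by
    intro y hy
    by_contra hcon
    have hyQ := hG.2.1 hy
    have hlt : ‖y‖ + ⟪c, y⟫_ℝ < 1 := lt_of_le_of_ne hyQ.2 hcon
    apply hGQ
    refine Set.Subset.antisymm hG.2.1 fun z hz => ?_
    have hU : IsOpen {y : E | ‖y‖ + ⟪c, y⟫_ℝ < 1} := isOpen_lt (by fun_prop) continuous_const
    obtain ⟨ε, hε, h1⟩ := exists_pos_step hU hlt (y - z)
    refine minFace_subset hG hy ⟨hz, ε, hε, ?_, le_of_lt h1⟩
    rw [map_add, map_smul, map_sub, hyQ.1, hz.1]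
  have hne0 : ∀ y ∈ G, y ≠ 0 := by
    rintro y hy rfl
    have := hbd 0 hy
    simp at this
  -- there is only one point
  have huniq : ∀ y ∈ G, ∀ z ∈ G, y = z := by
    intro y hy z hz
    have hm : (1 / 2 : ℝ) • y + (1 / 2 : ℝ) • z ∈ G :=
      hG.1 hy hz (by norm_num) (by norm_num) (by norm_num)
    have h1 := hbd y hy
    have h2 := hbd z hz
    have h3 := hbd _ hm
    have h4 : (1 / 2 : ℝ) • y + (1 / 2 : ℝ) • z = (1 / 2 : ℝ) • (y + z) := by module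
    rw [h4, norm_smul, inner_smul_right, inner_add_right,
      Real.norm_of_nonneg (by norm_num : (0 : ℝ) ≤ 1 / 2)] at h3
    have h5 : ‖y + z‖ = ‖y‖ + ‖z‖ := by linarith
    have h6 : SameRay ℝ y z := sameRay_iff_norm_add.2 h5
    obtain ⟨s, t, hs, ht, hst⟩ := h6.exists_pos (hne0 y hy) (hne0 z hz)
    have h7 : s = t := by
      have e1 : ‖s • y‖ + ⟪c, s • y⟫_ℝ = s := by
        rw [norm_smul, inner_smul_right, Real.norm_of_nonneg hs.le, ← mul_add, h1, mul_one]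
      have e2 : ‖t • z‖ + ⟪c, t • z⟫_ℝ = t := by
        rw [norm_smul, inner_smul_right, Real.norm_of_nonneg ht.le, ← mul_add, h2, mul_one]
      rw [← e1, ← e2, hst]
    subst h7
    exact smul_right_injective E hs.ne' hst
  obtain ⟨y, hy⟩ := hne
  have hy1 := hbd y hy
  have hy0 := hne0 y hy
  have hyn : 0 < ‖y‖ := norm_pos_iff.2 hy0
  have hG1 : G = {y} := by
    ext z
    exact ⟨fun hz => huniq z hz y hy, fun hz => hz ▸ hy⟩
  have hle : ∀ z, ⟪c + ‖y‖⁻¹ • y, z⟫_ℝ ≤ ‖z‖ + ⟪c, z⟫_ℝ := by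
    intro z
    rw [inner_add_left, real_inner_smul_left]
    have h1 := real_inner_le_norm y z
    have h2 : ‖y‖⁻¹ * ⟪y, z⟫_ℝ ≤ ‖z‖ := by
      rw [inv_mul_le_iff₀ hyn]
      exact h1
    linarith
  have hyy : ⟪c + ‖y‖⁻¹ • y, y⟫_ℝ = 1 := by
    rw [inner_add_left, real_inner_smul_left, real_inner_self_eq_norm_sq, pow_two, ← mul_assoc,
      inv_mul_cancel₀ hyn.ne', one_mul]
    linarith
  refine ⟨c + ‖y‖⁻¹ • y, ?_, 1, fun z hz => (hle z).trans hz.2, ?_⟩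
  · intro h0
    rw [h0] at hyy
    simp at hyy
  · rw [hG1]
    ext z
    constructor
    · rintro rfl
      exact ⟨hG.2.1 hy, hyy⟩
    · rintro ⟨hz, hz1⟩
      have h1 := hle z
      rw [hz1] at h1
      have h2 : ‖z‖ + ⟪c, z⟫_ℝ = 1 := le_antisymm hz.2 h1
      rw [inner_add_left, real_inner_smul_left] at hz1
      have h3 : ‖y‖⁻¹ * ⟪y, z⟫_ℝ = ‖z‖ := by linarith
      have h4 : ⟪y, z⟫_ℝ = ‖y‖ * ‖z‖ := by
        rw [← h3, ← mul_assoc, mul_inv_cancel₀ hyn.ne', one_mul]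
      have h5 := inner_eq_norm_mul_iff_real.1 h4
      -- ‖z‖ • y = ‖y‖ • z
      have h6 : ‖z‖ = ‖y‖ := by
        have e1 : ‖z‖ * (‖y‖ + ⟪c, y⟫_ℝ) = ‖z‖ * ‖y‖ + ⟪c, ‖z‖ • y⟫_ℝ := by
          rw [inner_smul_right]
          ring
        have e2 : ‖y‖ * (‖z‖ + ⟪c, z⟫_ℝ) = ‖z‖ * ‖y‖ + ⟪c, ‖y‖ • z⟫_ℝ := by
          rw [inner_smul_right]
          ring
        rw [hy1, mul_one] at e1
        rw [h2, mul_one] at e2
        calc ‖z‖ = ‖z‖ * ‖y‖ + ⟪c, ‖z‖ • y⟫_ℝ := e1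
          _ = ‖z‖ * ‖y‖ + ⟪c, ‖y‖ • z⟫_ℝ := by rw [h5]
          _ = ‖y‖ := e2.symm
      rw [h6] at h5
      exact (smul_right_injective E hyn.ne' h5).symm

/-- The polar of a set which is the part far from the origin of a ball. -/
theorem polar_eq_Q {P : E →ₗ[ℝ] E} (hsym : ∀ x y, ⟪P x, y⟫_ℝ = ⟪x, P y⟫_ℝ)
    (hid : ∀ x, P (P x) = P x) {e : E} (he : ‖e‖ = 1) (hPe : P e = e) {S : Set E}
    (h1 : ∀ x ∈ S, ‖P x + (4 : ℝ) • e‖ ≤ 1)
    (h2 : ∀ x, ‖P x + (4 : ℝ) • e‖ ≤ 1 → ⟪e, x⟫_ℝ ≤ -15 / 4 → x ∈ S) :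
    polar S = Qset P (-(4 : ℝ) • e) := by
  have hee : ⟪e, e⟫_ℝ = 1 := by rw [real_inner_self_eq_norm_sq, he]; norm_num
  have hPee : ∀ x, ⟪P x, e⟫_ℝ = ⟪e, x⟫_ℝ := by
    intro x
    rw [hsym, hPe, real_inner_comm]
  have hform : ∀ x, ‖P x + (4 : ℝ) • e‖ ^ 2 = ‖P x‖ ^ 2 + 8 * ⟪e, x⟫_ℝ + 16 := by
    intro x
    rw [norm_add_sq_real, inner_smul_right, hPee, norm_smul, he]
    norm_num
    ring
  have hiff : ∀ x, ‖P x + (4 : ℝ) • e‖ ≤ 1 ↔ ‖P x‖ ^ 2 + 8 * ⟪e, x⟫_ℝ + 15 ≤ 0 := by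
    intro x
    have h3 := hform x
    have h4 : ‖P x + (4 : ℝ) • e‖ ≤ 1 ↔ ‖P x + (4 : ℝ) • e‖ ^ 2 ≤ 1 :=
      (sq_le_one_iff₀ (norm_nonneg _)).symm
    rw [h4, h3]
    constructor <;> intro h5 <;> linarith
  -- points of the polar are bounded by one on the whole ball
  have hK : ∀ y ∈ polar S, ∀ x, ‖P x + (4 : ℝ) • e‖ ≤ 1 → ⟪x, y⟫_ℝ ≤ 1 := by
    intro y hy x hx
    by_cases hx0 : ⟪e, x⟫_ℝ ≤ -15 / 4
    · exact hy x (h2 x hx hx0)
    · push Not at hx0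
      have hx' := (hiff x).1 hx
      obtain ⟨N, hN⟩ : ∃ N, N = ‖P x‖ ^ 2 := ⟨_, rfl⟩
      obtain ⟨u, hu⟩ : ∃ u, u = ⟪e, x⟫_ℝ := ⟨_, rfl⟩
      rw [← hN, ← hu] at hx'
      rw [← hu] at hx0
      have hNpos : 0 < N := by
        have h3 : u ^ 2 ≤ N := by
          have h4 := abs_real_inner_le_norm (P x) e
          rw [hPee, ← hu, he, mul_one] at h4
          rw [hN, ← sq_abs u]
          exact pow_le_pow_left₀ (abs_nonneg _) h4 2
        nlinarith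
      have hN15 : N < 15 := by linarith
      obtain ⟨τ, hτ0, hτ2⟩ : ∃ τ : ℝ, 0 < τ ∧ τ ^ 2 * N = 15 := by
        refine ⟨Real.sqrt (15 / N), Real.sqrt_pos.2 (by positivity), ?_⟩
        rw [Real.sq_sqrt (by positivity)]
        field_simp
      have hτ1 : 1 ≤ τ := by
        by_contra hcon
        push Not at hcon
        have : τ ^ 2 < 1 := by nlinarith
        nlinarith
      have hamgm : 30 ≤ τ * (N + 15) := by
        have h3 : τ * (τ * (N + 15)) = 15 + 15 * τ ^ 2 := by nlinarith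
        have h4 : 30 * τ ≤ 15 + 15 * τ ^ 2 := by nlinarith [sq_nonneg (τ - 1)]
        rw [← h3, mul_comm 30 τ] at h4
        exact le_of_mul_le_mul_left h4 hτ0
      have hτu : τ * u ≤ -15 / 4 := by nlinarith
      have h3 : ⟪e, τ • x⟫_ℝ = τ * u := by rw [inner_smul_right, hu]
      have h4 : τ • x ∈ S := by
        apply h2
        · rw [hiff, map_smul, norm_smul, mul_pow, ← hN, h3, Real.norm_eq_abs, sq_abs, hτ2]
          linarith
        · rw [h3]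
          exact hτu
      have h5 := hy _ h4
      rw [real_inner_smul_left] at h5
      by_contra hcon
      push Not at hcon
      nlinarith
  ext y
  constructor
  · intro hy
    have hKy := hK y hy
    have hPy : P y = y := by
      have h3 : ∀ t : ℝ, ⟪(-5 : ℝ) • e + t • (y - P y), y⟫_ℝ ≤ 1 := by
        intro t
        apply hKy
        rw [map_add, map_smul, map_smul, map_sub, hid, hPe, sub_self, smul_zero, add_zero,
          ← add_smul, norm_smul, he]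
        norm_num
      have h4 : ⟪y - P y, y⟫_ℝ = ‖y - P y‖ ^ 2 := by
        have h5 : ⟪y - P y, P y⟫_ℝ = 0 := by
          rw [← hsym, map_sub, hid, sub_self, inner_zero_left]
        rw [← real_inner_self_eq_norm_sq, inner_sub_right, h5, sub_zero]
      by_contra hne
      have h5 : 0 < ‖y - P y‖ ^ 2 := by
        have : y - P y ≠ 0 := fun h => hne (sub_eq_zero.1 h).symm
        positivity
      have h6 := h3 ((2 + 5 * ⟪e, y⟫_ℝ) / ‖y - P y‖ ^ 2)
      rw [inner_add_left, real_inner_smul_left, real_inner_smul_left, h4,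
        div_mul_cancel₀ _ h5.ne'] at h6
      linarith
    refine ⟨hPy, ?_⟩
    by_cases hy0 : y = 0
    · subst hy0
      simp
    · have hyn : 0 < ‖y‖ := norm_pos_iff.2 hy0
      have h3 := hKy (-(4 : ℝ) • e + ‖y‖⁻¹ • y) (by
        rw [map_add, map_smul, map_smul, hPe, hPy]
        have : -(4 : ℝ) • e + ‖y‖⁻¹ • y + (4 : ℝ) • e = ‖y‖⁻¹ • y := by module
        rw [this, norm_smul, norm_inv, norm_norm, inv_mul_cancel₀ hyn.ne'])
      have h4 : ⟪‖y‖⁻¹ • y, y⟫_ℝ = ‖y‖ := by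
        rw [real_inner_smul_left, real_inner_self_eq_norm_sq, pow_two, ← mul_assoc,
          inv_mul_cancel₀ hyn.ne', one_mul]
      rw [inner_add_left, h4] at h3
      linarith
  · rintro ⟨hPy, hy⟩ x hx
    have h3 : ⟪x, y⟫_ℝ = ⟪P x + (4 : ℝ) • e, y⟫_ℝ + ⟪-(4 : ℝ) • e, y⟫_ℝ := by
      rw [← inner_add_left]
      have : P x + (4 : ℝ) • e + -(4 : ℝ) • e = P x := by module
      rw [this, hsym, hPy]
    have h4 := real_inner_le_norm (P x + (4 : ℝ) • e) y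
    have h5 := mul_le_mul_of_nonneg_right (h1 x hx) (norm_nonneg y)
    rw [h3]
    linarith

end Pool.Agent.Q52.Spec
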