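import Pool.Agent.Q52.Spec.Defs

set_option autoImplicit false

namespace Pool.Agent.Q52.Spec

open scoped InnerProductSpace
open Matrix

variable {n : ℕ}

/-- spectrahedra with arbitrary index types -/
def Spe (S : Set (EuclideanSpace ℝ (Fin n))) : Prop :=
  ∃ (m : Type) (_ : Fintype m) (A₀ : Matrix m m ℝ) (A : Fin n → Matrix m m ℝ),
    A₀.IsSymm ∧ (∀ i, (A i).IsSymm) ∧ ∀ x, x ∈ S ↔ (A₀ + ∑ i, x i • A i).PosSemidef

lemma Spe.isSpectrahedron {S : Set (EuclideanSpace ℝ (Fin n))} (h : Spe S) :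
    IsSpectrahedron S := by
  obtain ⟨m, hm, A₀, A, h0, h1, h2⟩ := h
  classical
  let e := Fintype.equivFin m
  refine ⟨Fintype.card m, A₀.submatrix e.symm e.symm, fun i => (A i).submatrix e.symm e.symm,
    ?_, ?_, ?_⟩
  · exact h0.submatrix _
  · exact fun i => (h1 i).submatrix _
  · ext x
    rw [h2]
    have h3 : A₀.submatrix e.symm e.symm + ∑ i, x i • (A i).submatrix e.symm e.symm =
        (A₀ + ∑ i, x i • A i).submatrix e.symm e.symm := by
      ext a b
      simp [Matrix.sum_apply]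
    change _ ↔ (A₀.submatrix e.symm e.symm + ∑ i, x i • (A i).submatrix e.symm e.symm).PosSemidef
    rw [h3, Matrix.posSemidef_submatrix_equiv]

lemma posSemidef_blocks {m k : Type*} [Fintype m] [Fintype k] (A : Matrix m m ℝ)
    (D : Matrix k k ℝ) :
    (fromBlocks A 0 0 D).PosSemidef ↔ A.PosSemidef ∧ D.PosSemidef := by
  constructor
  · intro h
    constructor
    · have h1 := h.submatrix (Sum.inl : m → m ⊕ k)
      have h2 : (fromBlocks A 0 0 D).submatrix (Sum.inl : m → m ⊕ k) Sum.inl = A := by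
        ext a b
        rfl
      rwa [h2] at h1
    · have h1 := h.submatrix (Sum.inr : k → m ⊕ k)
      have h2 : (fromBlocks A 0 0 D).submatrix (Sum.inr : k → m ⊕ k) Sum.inr = D := by
        ext a b
        rfl
      rwa [h2] at h1
  · rintro ⟨h1, h2⟩
    rw [posSemidef_iff_dotProduct_mulVec] at h1 h2 ⊢
    refine ⟨?_, fun x => ?_⟩
    · rw [Matrix.IsHermitian, fromBlocks_conjTranspose, h1.1, h2.1]
      simp
    · have e1 := h1.2 (x ∘ Sum.inl)
      have e2 := h2.2 (x ∘ Sum.inr)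
      have e3 : star x ⬝ᵥ (fromBlocks A 0 0 D *ᵥ x) =
          star (x ∘ Sum.inl) ⬝ᵥ (A *ᵥ (x ∘ Sum.inl)) +
          star (x ∘ Sum.inr) ⬝ᵥ (D *ᵥ (x ∘ Sum.inr)) := by
        rw [fromBlocks_mulVec]
        simp [dotProduct, Fintype.sum_sum_type]
      rw [e3]
      exact add_nonneg e1 e2

lemma Spe.inter {S T : Set (EuclideanSpace ℝ (Fin n))} (hS : Spe S) (hT : Spe T) :
    Spe (S ∩ T) := by
  obtain ⟨m, hm, A₀, A, h0, h1, h2⟩ := hS
  obtain ⟨k, hk, B₀, B, g0, g1, g2⟩ := hT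
  refine ⟨m ⊕ k, inferInstance, fromBlocks A₀ 0 0 B₀, fun i => fromBlocks (A i) 0 0 (B i),
    ?_, ?_, ?_⟩
  · exact Matrix.IsSymm.fromBlocks h0 (by simp) g0
  · exact fun i => Matrix.IsSymm.fromBlocks (h1 i) (by simp) (g1 i)
  · intro x
    have h3 : fromBlocks A₀ 0 0 B₀ + ∑ i, x i • fromBlocks (A i) 0 0 (B i) =
        fromBlocks (A₀ + ∑ i, x i • A i) 0 0 (B₀ + ∑ i, x i • B i) := by
      ext a b
      rcases a with a | a <;> rcases b with b | b <;> simp [Matrix.sum_apply]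
    rw [h3, posSemidef_blocks, Set.mem_inter_iff, h2, g2]

lemma spe_univ : Spe (Set.univ : Set (EuclideanSpace ℝ (Fin n))) := by
  refine ⟨Fin 0, inferInstance, 0, fun _ => 0, by simp, by simp, fun x => ?_⟩
  simp [Matrix.PosSemidef.zero]

/-- the block matrix of a ball -/
lemma quad_ball {r : ℝ} (v : EuclideanSpace ℝ (Fin n)) (x : Fin n ⊕ Unit → ℝ) : star x ⬝ᵥ
      (fromBlocks (r • (1 : Matrix (Fin n) (Fin n) ℝ)) (fun i (_ : Unit) => v i)
      (fun (_ : Unit) i => v i) (r • (1 : Matrix Unit Unit ℝ)) *ᵥ x) =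
      r * (∑ i, x (Sum.inl i) ^ 2) + 2 * x (Sum.inr ()) * (∑ i, x (Sum.inl i) * v i) +
        r * x (Sum.inr ()) ^ 2 := by
  rw [fromBlocks_mulVec]
  have e1 : star x ⬝ᵥ Sum.elim
      ((r • (1 : Matrix (Fin n) (Fin n) ℝ)) *ᵥ (x ∘ Sum.inl) +
        (fun i (_ : Unit) => v i : Matrix (Fin n) Unit ℝ) *ᵥ (x ∘ Sum.inr))
      ((fun (_ : Unit) i => v i : Matrix Unit (Fin n) ℝ) *ᵥ (x ∘ Sum.inl) +
        (r • (1 : Matrix Unit Unit ℝ)) *ᵥ (x ∘ Sum.inr)) =
      (∑ i, x (Sum.inl i) * (r * x (Sum.inl i) + v i * x (Sum.inr ()))) +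
        x (Sum.inr ()) * ((∑ i, v i * x (Sum.inl i)) + r * x (Sum.inr ())) := by
    simp [dotProduct, Fintype.sum_sum_type, mulVec, Matrix.one_apply, Finset.sum_ite_eq]
  rw [e1]
  have e2 : ∀ i, x (Sum.inl i) * (r * x (Sum.inl i) + v i * x (Sum.inr ())) =
      r * x (Sum.inl i) ^ 2 + x (Sum.inr ()) * (x (Sum.inl i) * v i) := fun i => by ring
  have e3 : ∀ i, v i * x (Sum.inl i) = x (Sum.inl i) * v i := fun i => mul_comm _ _
  simp only [e2, e3, Finset.sum_add_distrib, ← Finset.mul_sum]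
  ring

lemma posSemidef_ball {r : ℝ} (hr : 0 < r) (v : EuclideanSpace ℝ (Fin n)) :
    (fromBlocks (r • (1 : Matrix (Fin n) (Fin n) ℝ)) (fun i (_ : Unit) => v i)
      (fun (_ : Unit) i => v i) (r • (1 : Matrix Unit Unit ℝ))).PosSemidef ↔ ‖v‖ ≤ r := by
  rw [posSemidef_iff_dotProduct_mulVec]
  have hv : ‖v‖ ^ 2 = ∑ i, v i ^ 2 := by
    rw [EuclideanSpace.norm_sq_eq]
    simp
  constructor
  · rintro ⟨-, h⟩
    have h1 := h (Sum.elim (fun i => - v i) fun _ => ‖v‖)
    rw [quad_ball] at h1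
    simp only [Sum.elim_inl, Sum.elim_inr, neg_sq, neg_mul, Finset.sum_neg_distrib] at h1
    have h2 : ∑ i, v i * v i = ‖v‖ ^ 2 := by
      rw [hv]
      exact Finset.sum_congr rfl fun i _ => by ring
    rw [h2, ← hv] at h1
    by_contra hcon
    push Not at hcon
    have h3 : 0 < ‖v‖ ^ 2 * (‖v‖ - r) := by
      have : 0 < ‖v‖ := hr.trans hcon
      have h4 : 0 < ‖v‖ - r := by linarith
      positivity
    nlinarith
  · intro h
    refine ⟨?_, fun x => ?_⟩
    · rw [Matrix.IsHermitian, fromBlocks_conjTranspose]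
      ext a b
      rcases a with a | a <;> rcases b with b | b <;> simp [Matrix.one_apply, eq_comm]
    · rw [quad_ball]
      have h1 := Finset.sum_mul_sq_le_sq_mul_sq Finset.univ (fun i => x (Sum.inl i))
        (fun i => v i)
      rw [← hv] at h1
      have h2 : ‖v‖ ^ 2 ≤ r ^ 2 := pow_le_pow_left₀ (norm_nonneg _) h 2
      have h3 : 0 ≤ ∑ i, x (Sum.inl i) ^ 2 := Finset.sum_nonneg fun i _ => sq_nonneg _
      generalize (∑ i, x (Sum.inl i) ^ 2) = a at h1 h3 ⊢
      generalize (∑ i, x (Sum.inl i) * v i) = b at h1 ⊢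
      generalize x (Sum.inr ()) = s
      have h4 : b ^ 2 ≤ a * r ^ 2 := h1.trans (mul_le_mul_of_nonneg_left h2 h3)
      have h5 : 0 ≤ r * (r * a + 2 * s * b + r * s ^ 2) := by
        nlinarith [sq_nonneg (b + r * s)]
      exact nonneg_of_mul_nonneg_right h5 hr

lemma spe_ball (L : EuclideanSpace ℝ (Fin n) →ₗ[ℝ] EuclideanSpace ℝ (Fin n))
    (b : EuclideanSpace ℝ (Fin n)) {r : ℝ} (hr : 0 < r) : Spe {x | ‖L x + b‖ ≤ r} := by
  refine ⟨Fin n ⊕ Unit, inferInstance, fromBlocks (r • (1 : Matrix (Fin n) (Fin n) ℝ))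
    (fun i (_ : Unit) => b i) (fun (_ : Unit) i => b i) (r • (1 : Matrix Unit Unit ℝ)),
    fun j => fromBlocks 0 (fun i (_ : Unit) => L (EuclideanSpace.single j 1) i)
      (fun (_ : Unit) i => L (EuclideanSpace.single j 1) i) 0, ?_, ?_, ?_⟩
  · ext a b
    rcases a with a | a <;> rcases b with b | b <;> simp [Matrix.one_apply, eq_comm]
  · intro j
    ext a b
    rcases a with a | a <;> rcases b with b | b <;> simp
  · intro x
    have hx : L x = ∑ j, x j • L (EuclideanSpace.single j 1) := by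
      have h1 : x = ∑ j, x j • EuclideanSpace.single j (1 : ℝ) := by
        ext i
        simp [Finset.sum_apply, Pi.single_apply]
      nth_rewrite 1 [h1]
      rw [map_sum]
      simp only [map_smul]
    change ‖L x + b‖ ≤ r ↔ _
    rw [← posSemidef_ball hr]
    have h2 : fromBlocks (r • (1 : Matrix (Fin n) (Fin n) ℝ))
        (fun i (_ : Unit) => b i) (fun (_ : Unit) i => b i) (r • (1 : Matrix Unit Unit ℝ)) +
        ∑ j, x j • fromBlocks 0 (fun i (_ : Unit) => L (EuclideanSpace.single j 1) i)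
          (fun (_ : Unit) i => L (EuclideanSpace.single j 1) i) 0 =
        fromBlocks (r • (1 : Matrix (Fin n) (Fin n) ℝ)) (fun i (_ : Unit) => (L x + b) i)
          (fun (_ : Unit) i => (L x + b) i) (r • (1 : Matrix Unit Unit ℝ)) := by
      ext a b
      rcases a with a | a <;> rcases b with b | b <;>
        simp [Matrix.sum_apply, hx, add_comm]
    rw [h2]

lemma spe_inter_finset (J : Finset ℕ) (S : ℕ → Set (EuclideanSpace ℝ (Fin n)))
    (h : ∀ i ∈ J, Spe (S i)) : Spe {x | ∀ i ∈ J, x ∈ S i} := by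
  classical
  induction J using Finset.induction_on with
  | empty => simpa using spe_univ
  | insert j J hj ih =>
    have h1 := (h j (Finset.mem_insert_self _ _)).inter
      (ih fun i hi => h i (Finset.mem_insert_of_mem hi))
    convert h1 using 1
    ext x
    simp

end Pool.Agent.Q52.Spec
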