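import Pool.Agent.Q52.Spec.Cut
import Pool.Agent.Q52.Spec.Pol
import Pool.Agent.Q52.Spec.Spe

set_option autoImplicit false

namespace Pool.Agent.Q52.Spec

open scoped InnerProductSpace

/-- keep the first `m` coordinates -/
noncomputable def Pr (n m : ℕ) : EuclideanSpace ℝ (Fin n) →ₗ[ℝ] EuclideanSpace ℝ (Fin n) where
  toFun x := WithLp.toLp 2 fun j => if (j : ℕ) < m then x j else 0
  map_add' x y := by
    ext j
    by_cases h : (j : ℕ) < m <;> simp [h]
  map_smul' c x := by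
    ext j
    by_cases h : (j : ℕ) < m <;> simp [h]

variable {n : ℕ}

lemma Pr_apply (m : ℕ) (x : EuclideanSpace ℝ (Fin n)) (j : Fin n) :
    Pr n m x j = if (j : ℕ) < m then x j else 0 := rfl

lemma Pr_sym (m : ℕ) (x y : EuclideanSpace ℝ (Fin n)) : ⟪Pr n m x, y⟫_ℝ = ⟪x, Pr n m y⟫_ℝ := by
  rw [PiLp.inner_apply, PiLp.inner_apply]
  refine Finset.sum_congr rfl fun j _ => ?_
  rw [Pr_apply, Pr_apply]
  split_ifs <;> simp

lemma Pr_idem (m : ℕ) (x : EuclideanSpace ℝ (Fin n)) : Pr n m (Pr n m x) = Pr n m x := by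
  ext j
  rw [Pr_apply, Pr_apply]
  split_ifs <;> rfl

lemma Pr_sq (m : ℕ) (x : EuclideanSpace ℝ (Fin n)) :
    ‖Pr n m x‖ ^ 2 = ∑ j : Fin n, if (j : ℕ) < m then x j ^ 2 else 0 := by
  rw [EuclideanSpace.norm_sq_eq]
  refine Finset.sum_congr rfl fun j _ => ?_
  rw [Pr_apply]
  split_ifs <;> simp

lemma Pr_mono {m m' : ℕ} (h : m ≤ m') (x : EuclideanSpace ℝ (Fin n)) :
    ‖Pr n m x‖ ^ 2 ≤ ‖Pr n m' x‖ ^ 2 := by
  rw [Pr_sq, Pr_sq]
  refine Finset.sum_le_sum fun j _ => ?_
  by_cases h1 : (j : ℕ) < m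
  · rw [if_pos h1, if_pos (h1.trans_le h)]
  · rw [if_neg h1]
    split_ifs
    · positivity
    · exact le_rfl

lemma Pr_ker {i j : ℕ} (h : i ≤ j) (x : EuclideanSpace ℝ (Fin n)) (hx : Pr n (n - i) x = 0) :
    Pr n (n - j) x = 0 := by
  ext l
  rw [Pr_apply]
  split_ifs with h1
  · have h2 : Pr n (n - i) x l = 0 := by rw [hx]; rfl
    rw [Pr_apply, if_pos (by omega)] at h2
    rw [h2]
    rfl
  · rfl

lemma Pr_single (m : ℕ) (q : Fin n) (a : ℝ) :
    Pr n m (EuclideanSpace.single q a) = if (q : ℕ) < m then EuclideanSpace.single q a else 0 := by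
  ext l
  rw [Pr_apply]
  by_cases hlq : l = q
  · subst hlq
    split_ifs <;> simp
  · split_ifs <;> simp [hlq]

lemma finrank_ker_Pr {i : ℕ} (hi : i ≤ n) :
    Module.finrank ℝ (LinearMap.ker (Pr n (n - i))) = i := by
  classical
  let f : LinearMap.ker (Pr n (n - i)) →ₗ[ℝ] ({j : Fin n // ¬ (j : ℕ) < n - i} → ℝ) :=
    { toFun := fun x j => (x : EuclideanSpace ℝ (Fin n)) j
      map_add' := fun x y => rfl
      map_smul' := fun c x => rfl }
  have hmem : ∀ x : EuclideanSpace ℝ (Fin n), x ∈ LinearMap.ker (Pr n (n - i)) ↔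
      ∀ j : Fin n, (j : ℕ) < n - i → x j = 0 := by
    intro x
    rw [LinearMap.mem_ker]
    constructor
    · intro h j hj
      have h1 : Pr n (n - i) x j = 0 := by rw [h]; rfl
      rwa [Pr_apply, if_pos hj] at h1
    · intro h
      ext j
      rw [Pr_apply]
      split_ifs with h1
      · rw [h j h1]; rfl
      · rfl
  have hbij : Function.Bijective f := by
    constructor
    · intro x y hxy
      apply Subtype.ext
      ext j
      by_cases hj : (j : ℕ) < n - i
      · rw [(hmem x).1 x.2 j hj, (hmem y).1 y.2 j hj]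
      · exact congrFun hxy ⟨j, hj⟩
    · intro g
      refine ⟨⟨WithLp.toLp 2 fun j => if h : (j : ℕ) < n - i then 0 else g ⟨j, h⟩, ?_⟩, ?_⟩
      · rw [hmem]
        intro j hj
        simp [hj]
      · ext ⟨j, hj⟩
        change (if h : (j : ℕ) < n - i then (0 : ℝ) else g ⟨j, h⟩) = _
        rw [dif_neg hj]
  rw [(LinearEquiv.ofBijective f hbij).finrank_eq, Module.finrank_fintype_fun_eq_card]
  have h1 : Fintype.card {j : Fin n // ¬ (j : ℕ) < n - i} = Fintype.card (Fin i) := by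
    refine Fintype.card_congr ⟨fun j => ⟨(j.1 : ℕ) - (n - i), by have := j.1.2; have := j.2; omega⟩,
      fun j => ⟨⟨(j : ℕ) + (n - i), by have := j.2; omega⟩, by simp⟩, ?_, ?_⟩
    · rintro ⟨j, hj⟩
      ext
      simp
      omega
    · intro j
      ext
      simp
  rw [h1, Fintype.card_fin]

end Pool.Agent.Q52.Spec
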