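import Pool.Agent.Q52.Spec.Pos

set_option autoImplicit false

namespace Pool.Agent.Q52.Spec

open scoped InnerProductSpace

/-- the numbers `1/2 < s i ≤ 3/5`, decreasing -/
noncomputable def sv (i : ℕ) : ℝ := 1 / 2 + 1 / (10 * ((i : ℝ) + 1))

lemma sv_lt {i j : ℕ} (h : i < j) : sv j < sv i := by
  unfold sv
  have h1 : (i : ℝ) + 1 < (j : ℝ) + 1 := by exact_mod_cast Nat.succ_lt_succ h
  have h2 : (0 : ℝ) < (i : ℝ) + 1 := by positivity
  have h3 : 1 / (10 * ((j : ℝ) + 1)) < 1 / (10 * ((i : ℝ) + 1)) := by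
    apply one_div_lt_one_div_of_lt
    · positivity
    · linarith
  linarith

lemma sv_gt (i : ℕ) : 1 / 2 < sv i := by
  unfold sv
  have : (0 : ℝ) < 1 / (10 * ((i : ℝ) + 1)) := by positivity
  linarith

lemma sv_le (i : ℕ) : sv i ≤ 3 / 5 := by
  unfold sv
  have : 1 / (10 * ((i : ℝ) + 1)) ≤ 1 / 10 := by
    apply one_div_le_one_div_of_le (by norm_num)
    have : (0 : ℝ) ≤ (i : ℝ) := by positivity
    linarith
  linarith

/-- the centres -/
noncomputable def Tv (k i : ℕ) : ℝ := if i = k then 4 else 6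

/-- the radii -/
noncomputable def Rv (k i : ℕ) : ℝ := if i = k then 1 else 2 + sv i

lemma Rv_pos (k i : ℕ) : 0 < Rv k i := by
  unfold Rv
  split_ifs
  · norm_num
  · have := sv_gt i
    linarith

variable {n : ℕ}

lemma sqf {m : ℕ} (hn : 0 < n) (hm : 0 < m) (T : ℝ) (x : EuclideanSpace ℝ (Fin n)) :
    ‖Pr n m x + T • EuclideanSpace.single ⟨0, hn⟩ (1 : ℝ)‖ ^ 2 =
      ‖Pr n m x‖ ^ 2 + 2 * T * x ⟨0, hn⟩ + T ^ 2 := by
  rw [norm_add_sq_real, inner_smul_right, norm_smul, EuclideanSpace.norm_single,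
    EuclideanSpace.inner_single_right, Pr_apply, if_pos hm]
  simp
  ring

/-- the constraints -/
noncomputable def bv (hn : 0 < n) (k : ℕ) (i : ℕ) : EuclideanSpace ℝ (Fin n) :=
  Tv k i • EuclideanSpace.single ⟨0, hn⟩ (1 : ℝ)

/-- the spectrahedron -/
noncomputable def Sv (hn : 0 < n) (k : ℕ) (J : Finset ℕ) : Set (EuclideanSpace ℝ (Fin n)) :=
  cyl (fun i => Pr n (n - i)) (bv hn k) (Rv k) J

lemma val_sq (hn : 0 < n) (k : ℕ) {i : ℕ} (hi : i < n) (x : EuclideanSpace ℝ (Fin n)) :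
    ‖Pr n (n - i) x + bv hn k i‖ ^ 2 =
      ‖Pr n (n - i) x‖ ^ 2 + 2 * Tv k i * x ⟨0, hn⟩ + Tv k i ^ 2 :=
  sqf hn (by omega) _ x

lemma mkWit {hn : 0 < n} {k : ℕ} {J : Finset ℕ} {i : ℕ} {x : EuclideanSpace ℝ (Fin n)}
    (h1 : ∀ j ∈ J, j < i → ‖Pr n (n - j) x + bv hn k j‖ ^ 2 < Rv k j ^ 2)
    (h2 : ‖Pr n (n - i) x + bv hn k i‖ ^ 2 = Rv k i ^ 2)
    (h3 : ∀ j ∈ J, i < j → ‖Pr n (n - j) x + bv hn k j‖ ^ 2 ≤ Rv k j ^ 2) :
    Wit (fun i => Pr n (n - i)) (bv hn k) (Rv k) J i x := by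
  have e2 : ‖Pr n (n - i) x + bv hn k i‖ = Rv k i := by
    have := (sq_eq_sq₀ (norm_nonneg _) (Rv_pos k i).le).1 h2
    exact this
  have e1 : ∀ j ∈ J, j < i → ‖Pr n (n - j) x + bv hn k j‖ < Rv k j := fun j hj hji =>
    lt_of_pow_lt_pow_left₀ 2 (Rv_pos k j).le (h1 j hj hji)
  refine ⟨?_, e2, e1⟩
  intro j hj
  rcases lt_trichotomy j i with h | h | h
  · exact (e1 j hj h).le
  · subst h
    exact e2.le
  · exact (pow_le_pow_iff_left₀ (norm_nonneg _) (Rv_pos k j).le two_ne_zero).1 (h3 j hj h)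

lemma far_mem {hn : 0 < n} {k : ℕ} {J : Finset ℕ} (hJn : ∀ i ∈ J, i < n)
    (hJk : ∀ i ∈ J, k ≤ i) (hkn : k < n) {x : EuclideanSpace ℝ (Fin n)}
    (hx : ‖Pr n (n - k) x + bv hn k k‖ ^ 2 ≤ 1) (hx0 : x ⟨0, hn⟩ ≤ -15 / 4) {i : ℕ} (hi : i ∈ J) :
    ‖Pr n (n - i) x + bv hn k i‖ ^ 2 ≤ Rv k i ^ 2 := by
  by_cases hik : i = k
  · subst hik
    refine hx.trans ?_
    simp [Rv]
  · have h1 := Pr_mono (n := n) (m := n - i) (m' := n - k) (by have := hJk i hi; omega) x
    rw [val_sq hn k hkn] at hx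
    rw [val_sq hn k (hJn i hi)]
    have e1 : Tv k k = 4 := by simp [Tv]
    have e2 : Tv k i = 6 := by simp [Tv, hik]
    have e3 : Rv k i = 2 + sv i := by simp [Rv, hik]
    rw [e1] at hx
    rw [e2, e3]
    have := sv_gt i
    nlinarith

/-- the norms of the test points -/
lemma test_sq (hn : 0 < n) (a β : ℝ) (q : Fin n) (hq : (q : ℕ) ≠ 0) {m : ℕ} (hm : 0 < m) :
    ‖Pr n m (a • EuclideanSpace.single ⟨0, hn⟩ (1 : ℝ) + β • EuclideanSpace.single q (1 : ℝ))‖ ^ 2 =
      a ^ 2 + if (q : ℕ) < m then β ^ 2 else 0 := by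
  rw [map_add, map_smul, map_smul, Pr_single, Pr_single, if_pos hm]
  have hne : (⟨0, hn⟩ : Fin n) ≠ q := fun h => hq (by rw [← h])
  split_ifs with h
  · rw [norm_add_sq_real, norm_smul, norm_smul, inner_smul_left, inner_smul_right]
    simp [EuclideanSpace.inner_single_left, hne, sq_abs]
  · rw [smul_zero, add_zero, norm_smul]
    simp [sq_abs]

lemma test_sq' (hn : 0 < n) (a : ℝ) {m : ℕ} (hm : 0 < m) :
    ‖Pr n m (a • EuclideanSpace.single ⟨0, hn⟩ (1 : ℝ))‖ ^ 2 = a ^ 2 := by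
  rw [map_smul, Pr_single, if_pos hm, norm_smul]
  simp [sq_abs]

theorem exists_wit {hn : 0 < n} {k : ℕ} {J : Finset ℕ} (hJn : ∀ i ∈ J, i < n)
    (hJk : ∀ i ∈ J, k ≤ i) (hk : k ∈ J) {i : ℕ} (hi : i ∈ J) :
    ∃ x, Wit (fun i => Pr n (n - i)) (bv hn k) (Rv k) J i x := by
  have hkn := hJn k hk
  have hin := hJn i hi
  by_cases hik : i = k
  · subst hik
    refine ⟨(-5 : ℝ) • EuclideanSpace.single ⟨0, hn⟩ (1 : ℝ), ?_⟩
    have hx0 : ((-5 : ℝ) • EuclideanSpace.single ⟨0, hn⟩ (1 : ℝ) : EuclideanSpace ℝ (Fin n))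
        ⟨0, hn⟩ = -5 := by simp
    have h2 : ‖Pr n (n - i) ((-5 : ℝ) • EuclideanSpace.single ⟨0, hn⟩ (1 : ℝ)) + bv hn i i‖ ^ 2
        = 1 := by
      rw [val_sq hn i hkn, test_sq' hn _ (by omega), hx0]
      simp [Tv]
      norm_num
    apply mkWit
    · intro j hj hji
      have := hJk j hj
      omega
    · rw [h2]
      simp [Rv]
    · intro j hj hji
      exact far_mem hJn hJk hkn h2.le (by rw [hx0]; norm_num) hj
  · have hki : k < i := lt_of_le_of_ne (hJk i hi) (Ne.symm hik)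
    have hs1 := sv_gt i
    have hs2 := sv_le i
    have eTi : Tv k i = 6 := by simp [Tv, hik]
    have eRi : Rv k i = 2 + sv i := by simp [Rv, hik]
    by_cases hm : n - i = 1
    · refine ⟨(sv i - 4) • EuclideanSpace.single ⟨0, hn⟩ (1 : ℝ), ?_⟩
      have hx0 : ((sv i - 4) • EuclideanSpace.single ⟨0, hn⟩ (1 : ℝ) : EuclideanSpace ℝ (Fin n))
          ⟨0, hn⟩ = sv i - 4 := by simp
      apply mkWit
      · intro j hj hji
        rw [val_sq hn k (hJn j hj), test_sq' hn _ (by omega), hx0]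
        by_cases hjk : j = k
        · have e1 : Tv k j = 4 := by simp [Tv, hjk]
          have e2 : Rv k j = 1 := by simp [Rv, hjk]
          rw [e1, e2]
          nlinarith
        · have e1 : Tv k j = 6 := by simp [Tv, hjk]
          have e2 : Rv k j = 2 + sv j := by simp [Rv, hjk]
          rw [e1, e2]
          have := sv_lt hji
          nlinarith
      · rw [val_sq hn k hin, test_sq' hn _ (by omega), hx0, eTi, eRi]
        ring
      · intro j hj hij
        have := hJn j hj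
        omega
    · have hq : n - i - 1 < n := by omega
      have hβ0 : 0 ≤ (2 + sv i) ^ 2 - 25 / 4 := by nlinarith
      obtain ⟨β, hβ⟩ : ∃ β : ℝ, β ^ 2 = (2 + sv i) ^ 2 - 25 / 4 :=
        ⟨Real.sqrt _, Real.sq_sqrt hβ0⟩
      refine ⟨(-7 / 2 : ℝ) • EuclideanSpace.single ⟨0, hn⟩ (1 : ℝ) +
        β • EuclideanSpace.single ⟨n - i - 1, hq⟩ (1 : ℝ), ?_⟩
      have hne : (⟨0, hn⟩ : Fin n) ≠ ⟨n - i - 1, hq⟩ := by
        intro h
        have := congrArg Fin.val h
        simp at this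
        omega
      have hx0 : ((-7 / 2 : ℝ) • EuclideanSpace.single ⟨0, hn⟩ (1 : ℝ) +
        β • EuclideanSpace.single ⟨n - i - 1, hq⟩ (1 : ℝ) : EuclideanSpace ℝ (Fin n))
          ⟨0, hn⟩ = -7 / 2 := by simp [hne]
      have hq0 : ((⟨n - i - 1, hq⟩ : Fin n) : ℕ) ≠ 0 := by
        change n - i - 1 ≠ 0
        omega
      apply mkWit
      · intro j hj hji
        rw [val_sq hn k (hJn j hj), test_sq hn _ _ _ hq0 (by have := hJn j hj; omega), hx0,
          if_pos (by change n - i - 1 < n - j; omega), hβ]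
        by_cases hjk : j = k
        · have e1 : Tv k j = 4 := by simp [Tv, hjk]
          have e2 : Rv k j = 1 := by simp [Rv, hjk]
          rw [e1, e2]
          nlinarith
        · have e1 : Tv k j = 6 := by simp [Tv, hjk]
          have e2 : Rv k j = 2 + sv j := by simp [Rv, hjk]
          rw [e1, e2]
          have := sv_lt hji
          nlinarith
      · rw [val_sq hn k hin, test_sq hn _ _ _ hq0 (by omega), hx0,
          if_pos (by change n - i - 1 < n - i; omega), hβ, eTi, eRi]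
        ring
      · intro j hj hij
        have hjk : j ≠ k := by omega
        rw [val_sq hn k (hJn j hj), test_sq hn _ _ _ hq0 (by have := hJn j hj; omega), hx0,
          if_neg (by change ¬ n - i - 1 < n - j; omega)]
        have e1 : Tv k j = 6 := by simp [Tv, hjk]
        have e2 : Rv k j = 2 + sv j := by simp [Rv, hjk]
        rw [e1, e2]
        have := sv_gt j
        nlinarith

lemma interior_point {hn : 0 < n} {k : ℕ} {J : Finset ℕ} (hJn : ∀ i ∈ J, i < n) :
    ∀ i ∈ J, ‖Pr n (n - i) ((-4 : ℝ) • EuclideanSpace.single ⟨0, hn⟩ (1 : ℝ)) + bv hn k i‖ <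
      Rv k i := by
  intro i hi
  have hin := hJn i hi
  apply lt_of_pow_lt_pow_left₀ 2 (Rv_pos k i).le
  have hx0 : ((-4 : ℝ) • EuclideanSpace.single ⟨0, hn⟩ (1 : ℝ) : EuclideanSpace ℝ (Fin n))
      ⟨0, hn⟩ = -4 := by simp
  rw [val_sq hn k hin, test_sq' hn _ (by omega), hx0]
  by_cases hik : i = k
  · have e1 : Tv k i = 4 := by simp [Tv, hik]
    have e2 : Rv k i = 1 := by simp [Rv, hik]
    rw [e1, e2]
    norm_num
  · have e1 : Tv k i = 6 := by simp [Tv, hik]
    have e2 : Rv k i = 2 + sv i := by simp [Rv, hik]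
    rw [e1, e2]
    have := sv_gt i
    nlinarith

theorem polar_Sv {hn : 0 < n} {k : ℕ} {J : Finset ℕ} (hJn : ∀ i ∈ J, i < n)
    (hJk : ∀ i ∈ J, k ≤ i) (hk : k ∈ J) :
    polar (Sv hn k J) = Qset (Pr n (n - k)) (-(4 : ℝ) • EuclideanSpace.single ⟨0, hn⟩ (1 : ℝ)) := by
  have hkn := hJn k hk
  have hbk : bv hn k k = (4 : ℝ) • EuclideanSpace.single ⟨0, hn⟩ (1 : ℝ) := by simp [bv, Tv]
  have hRk : Rv k k = 1 := by simp [Rv]
  apply polar_eq_Q (Pr_sym _) (Pr_idem _)
  · simp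
  · rw [Pr_single, if_pos (by change 0 < n - k; omega)]
  · intro x hx
    have := hx k hk
    rw [hbk, hRk] at this
    exact this
  · intro x hx hx0 i hi
    refine (pow_le_pow_iff_left₀ (norm_nonneg _) (Rv_pos k i).le two_ne_zero).1 ?_
    refine far_mem hJn hJk hkn ?_ ?_ hi
    · rw [hbk]
      exact pow_le_one₀ (norm_nonneg _) hx
    · rw [EuclideanSpace.inner_single_left] at hx0
      simpa using hx0

theorem exists_spectrahedron (I : Finset ℕ) (hI : I.Nonempty) :
    ∃ (n : ℕ) (S : Set (EuclideanSpace ℝ (Fin n))), IsSpectrahedron S ∧ signature S = I ∧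
      FaciallyExposed S ∧ FaciallyExposed (polar S) := by
  classical
  obtain ⟨n, hnI, hmax⟩ : ∃ n ∈ I, ∀ i ∈ I, i ≤ n := ⟨I.max' hI, I.max'_mem hI, fun i hi => I.le_max' i hi⟩
  obtain ⟨k, hkI, hmin⟩ : ∃ k ∈ I, ∀ i ∈ I, k ≤ i := ⟨I.min' hI, I.min'_mem hI, fun i hi => I.min'_le i hi⟩
  have hker : ∀ i j, i ≤ j → ∀ x, Pr n (n - i) x = 0 → Pr n (n - j) x = 0 := fun i j h x =>
    Pr_ker h x
  by_cases hkn : k = n
  · -- one dimension only
    have hIn : I = {n} := by
      ext i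
      rw [Finset.mem_singleton]
      constructor
      · intro hi
        have h1 := hmax i hi
        have h2 := hmin i hi
        omega
      · rintro rfl
        exact hnI
    have hcyl : (cyl (fun i => Pr n (n - i)) (fun _ => 0) (fun _ => 0) ∅ :
        Set (EuclideanSpace ℝ (Fin n))) = Set.univ := by
      ext x
      simp [cyl]
    refine ⟨n, Set.univ, spe_univ.isSpectrahedron, ?_, ?_, ?_⟩
    · rw [← hcyl, signature_cyl hker (x0 := 0) (by simp) (by simp), hIn]
      ext j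
      simp
    · rw [← hcyl]
      exact faciallyExposed_cyl hker
    · have hpol : polar (Set.univ : Set (EuclideanSpace ℝ (Fin n))) = {0} := by
        ext y
        constructor
        · intro hy
          by_contra hne
          have hyn : 0 < ‖y‖ ^ 2 := by
            have : y ≠ 0 := hne
            positivity
          have h1 := hy ((2 / ‖y‖ ^ 2) • y) (Set.mem_univ _)
          rw [real_inner_smul_left, real_inner_self_eq_norm_sq, div_mul_cancel₀ _ hyn.ne'] at h1
          norm_num at h1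
        · rintro rfl
          exact zero_mem_polar _
      rw [hpol]
      intro F hF hne hFne
      exfalso
      apply hFne
      obtain ⟨y, hy⟩ := hne
      have h1 : y = 0 := hF.2.1 hy
      subst h1
      exact Set.Subset.antisymm hF.2.1 (by simpa using hy)
  · have hn : 0 < n := by
      have := hmin n hnI
      omega
    have hJn : ∀ i ∈ I.erase n, i < n := by
      intro i hi
      obtain ⟨h1, h2⟩ := Finset.mem_erase.1 hi
      exact lt_of_le_of_ne (hmax i h2) h1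
    have hJk : ∀ i ∈ I.erase n, k ≤ i := fun i hi => hmin i (Finset.mem_of_mem_erase hi)
    have hkJ : k ∈ I.erase n := Finset.mem_erase.2 ⟨hkn, hkI⟩
    refine ⟨n, Sv hn k (I.erase n), ?_, ?_, ?_, ?_⟩
    · apply Spe.isSpectrahedron
      exact spe_inter_finset _ _ fun i _ => spe_ball (Pr n (n - i)) (bv hn k i) (Rv_pos k i)
    · unfold Sv
      rw [signature_cyl hker (interior_point hJn) fun i hi => exists_wit hJn hJk hkJ hi]
      ext j
      simp only [finrank_euclideanSpace_fin, Finset.mem_coe]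
      constructor
      · rintro (rfl | ⟨i, hi, rfl⟩)
        · exact hnI
        · rw [finrank_ker_Pr (hJn i hi).le]
          exact Finset.mem_of_mem_erase hi
      · intro hj
        by_cases hjn : j = n
        · exact Or.inl hjn
        · right
          refine ⟨j, Finset.mem_erase.2 ⟨hjn, hj⟩, ?_⟩
          rw [finrank_ker_Pr (hmax j hj)]
    · exact faciallyExposed_cyl hker
    · rw [polar_Sv hJn hJk hkJ]
      exact faciallyExposed_Q _ _

end Pool.Agent.Q52.Spec
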